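import Pool.Agent.W928.MW.Sup

/-! # local fourth moment -/

set_option autoImplicit false

open Finset MeasureTheory

namespace Pool.Agent.W928.MW

theorem int_cos (c u v : ℝ) (huv : u ≤ v) : ∫ t in u..v, Real.cos (2 * Real.pi * t * c) ≤ v - u := by
  have h1 : ∫ t in u..v, Real.cos (2 * Real.pi * t * c) ≤ ∫ t in u..v, (1 : ℝ) := by
    apply intervalIntegral.integral_mono_on huv
    · exact (by fun_prop : Continuous fun t : ℝ => Real.cos (2 * Real.pi * t * c)).intervalIntegrable _ _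
    · exact intervalIntegrable_const
    · intro x _
      exact Real.cos_le_one _
  rw [intervalIntegral.integral_const] at h1
  simpa using h1

theorem int_cos2 (c u v : ℝ) (hc : c ≠ 0) : ∫ t in u..v, Real.cos (2 * Real.pi * t * c) ≤ 1 / |c| := by
  have hpi := Real.pi_pos
  have h0 : (2 * Real.pi * c) ≠ 0 := by positivity
  have h1 : ∫ t in u..v, Real.cos (2 * Real.pi * t * c) =
      (2 * Real.pi * c)⁻¹ * (Real.sin (2 * Real.pi * c * v) - Real.sin (2 * Real.pi * c * u)) := by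
    have h2 : (fun t : ℝ => Real.cos (2 * Real.pi * t * c)) = fun t => Real.cos (2 * Real.pi * c * t) := by
      funext t
      congr 1
      ring
    rw [h2, intervalIntegral.integral_comp_mul_left (fun x => Real.cos x) h0, integral_cos]
    rfl
  rw [h1]
  refine (le_abs_self _).trans ?_
  rw [abs_mul, abs_inv, abs_mul, abs_of_pos (by positivity : (0:ℝ) < 2 * Real.pi)]
  have h3 : |Real.sin (2 * Real.pi * c * v) - Real.sin (2 * Real.pi * c * u)| ≤ 2 := by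
    rw [abs_le]
    have a1 := Real.sin_le_one (2 * Real.pi * c * v)
    have a2 := Real.neg_one_le_sin (2 * Real.pi * c * v)
    have a3 := Real.sin_le_one (2 * Real.pi * c * u)
    have a4 := Real.neg_one_le_sin (2 * Real.pi * c * u)
    constructor <;> linarith
  have hc' : 0 < |c| := abs_pos.mpr hc
  have h4 : (2 * Real.pi * |c|)⁻¹ * |Real.sin (2 * Real.pi * c * v) - Real.sin (2 * Real.pi * c * u)| ≤
      (2 * Real.pi * |c|)⁻¹ * 2 := mul_le_mul_of_nonneg_left h3 (by positivity)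
  refine h4.trans ?_
  rw [inv_mul_eq_div, div_le_div_iff₀ (by positivity) hc']
  have : (3:ℝ) < Real.pi := Real.pi_gt_three
  nlinarith

/-- the kernel of the nondiagonal terms -/
noncomputable def hk (x y z : ℕ) : ℝ :=
  if y ≠ x ∧ z ≠ x then
    1 / (|(x : ℝ) - (y : ℝ)| * |(x : ℝ) - (z : ℝ)| * (max (x : ℝ) (max (y : ℝ) (z : ℝ))) ^ 2) else 0

theorem hk_nonneg (x y z : ℕ) : 0 ≤ hk x y z := by
  unfold hk
  split_ifs
  · positivity
  · exact le_refl _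

theorem term_le (hD : S_DIO) (k N : ℕ) (hk4 : 4 ≤ k) (u v : ℝ) (huv : u ≤ v) (z w : ℕ × ℕ)
    (hz : z ∈ (Icc 1 N) ×ˢ (Icc 1 N)) (hw : w ∈ prs N (z.1 + z.2)) :
    ∫ t in u..v, Real.cos (2 * Real.pi * t * (((z.1 : ℝ) ^ k + (z.2 : ℝ) ^ k) - ((w.1 : ℝ) ^ k + (w.2 : ℝ) ^ k))) ≤
      (if w = z then (v - u) else 0) + (if w = (z.2, z.1) then (v - u) else 0) + hk z.1 w.1 w.2 := by
  unfold prs at hw
  rw [Finset.mem_filter, Finset.mem_product, Finset.mem_Icc, Finset.mem_Icc] at hw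
  rw [Finset.mem_product, Finset.mem_Icc, Finset.mem_Icc] at hz
  obtain ⟨⟨⟨hw1, hw2⟩, hw3, hw4⟩, hw5⟩ := hw
  obtain ⟨⟨hz1, hz2⟩, hz3, hz4⟩ := hz
  have hvu : 0 ≤ v - u := by linarith
  have hn := hk_nonneg z.1 w.1 w.2
  have e1 : (0:ℝ) ≤ (if w = z then (v - u) else 0) := by split_ifs <;> linarith
  have e2 : (0:ℝ) ≤ (if w = (z.2, z.1) then (v - u) else 0) := by split_ifs <;> linarith
  by_cases c1 : w.1 = z.1
  · have c2 : w = z := by
      ext
      · exact c1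
      · omega
    have := int_cos (((z.1 : ℝ) ^ k + (z.2 : ℝ) ^ k) - ((w.1 : ℝ) ^ k + (w.2 : ℝ) ^ k)) u v huv
    rw [if_pos c2]
    linarith
  by_cases c3 : w.2 = z.1
  · have c4 : w = (z.2, z.1) := by
      ext
      · simp only; omega
      · exact c3
    have := int_cos (((z.1 : ℝ) ^ k + (z.2 : ℝ) ^ k) - ((w.1 : ℝ) ^ k + (w.2 : ℝ) ^ k)) u v huv
    rw [if_pos c4]
    linarith
  have hd := hD k z.1 z.2 w.1 w.2 (by omega) hw5.symm
  set Mx : ℝ := max (max (z.1 : ℝ) (z.2 : ℝ)) (max (w.1 : ℝ) (w.2 : ℝ)) with hMx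
  set My : ℝ := max (z.1 : ℝ) (max (w.1 : ℝ) (w.2 : ℝ)) with hMy
  have hMyx : My ≤ Mx := by
    apply max_le
    · exact (le_max_left _ _).trans (le_max_left _ _)
    · exact le_max_right _ _
  have hz1' : (1 : ℝ) ≤ (z.1 : ℝ) := by exact_mod_cast hz1
  have hMy1 : 1 ≤ My := hz1'.trans (le_max_left _ _)
  have hMx1 : 1 ≤ Mx := hMy1.trans hMyx
  have a1 : 0 < |(z.1 : ℝ) - (w.1 : ℝ)| := by
    rw [abs_pos, sub_ne_zero]
    intro h
    exact c1 (by exact_mod_cast h.symm)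
  have a2 : 0 < |(z.1 : ℝ) - (w.2 : ℝ)| := by
    rw [abs_pos, sub_ne_zero]
    intro h
    exact c3 (by exact_mod_cast h.symm)
  have a3 : My ^ 2 ≤ Mx ^ (k - 2) := by
    calc My ^ 2 ≤ Mx ^ 2 := pow_le_pow_left₀ (by linarith) hMyx 2
      _ ≤ Mx ^ (k - 2) := pow_le_pow_right₀ hMx1 (by omega)
  have a4 : |(z.1 : ℝ) - (w.1 : ℝ)| * |(z.1 : ℝ) - (w.2 : ℝ)| * My ^ 2 ≤
      |((z.1 : ℝ) ^ k + (z.2 : ℝ) ^ k) - ((w.1 : ℝ) ^ k + (w.2 : ℝ) ^ k)| := by
    have b1 : |(z.1 : ℝ) - (w.1 : ℝ)| * |(z.1 : ℝ) - (w.2 : ℝ)| * My ^ 2 ≤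
        |(z.1 : ℝ) - (w.1 : ℝ)| * |(z.1 : ℝ) - (w.2 : ℝ)| * Mx ^ (k - 2) :=
      mul_le_mul_of_nonneg_left a3 (by positivity)
    have b2 : (z.1 : ℝ) ^ k + (z.2 : ℝ) ^ k - (w.1 : ℝ) ^ k - (w.2 : ℝ) ^ k =
        ((z.1 : ℝ) ^ k + (z.2 : ℝ) ^ k) - ((w.1 : ℝ) ^ k + (w.2 : ℝ) ^ k) := by ring
    rw [b2] at hd
    exact b1.trans hd
  have a5 : 0 < |(z.1 : ℝ) - (w.1 : ℝ)| * |(z.1 : ℝ) - (w.2 : ℝ)| * My ^ 2 := by positivity
  have a6 : ((z.1 : ℝ) ^ k + (z.2 : ℝ) ^ k) - ((w.1 : ℝ) ^ k + (w.2 : ℝ) ^ k) ≠ 0 := by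
    intro h
    rw [h, abs_zero] at a4
    linarith
  have a7 := int_cos2 _ u v a6
  have a8 : hk z.1 w.1 w.2 = 1 / (|(z.1 : ℝ) - (w.1 : ℝ)| * |(z.1 : ℝ) - (w.2 : ℝ)| * My ^ 2) := by
    unfold hk
    rw [if_pos ⟨c1, c3⟩]
  have a9 := one_div_le_one_div_of_le a5 a4
  rw [← a8] at a9
  linarith

theorem sum_hk (N : ℕ) : ∑ z ∈ (Icc 1 N) ×ˢ (Icc 1 N), ∑ w ∈ prs N (z.1 + z.2), hk z.1 w.1 w.2 ≤
    ∑ x ∈ Icc 1 N, ∑ y ∈ (Icc 1 N).filter (fun y => y ≠ x), ∑ z ∈ (Icc 1 N).filter (fun z => z ≠ x),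
    1 / (|(x : ℝ) - (y : ℝ)| * |(x : ℝ) - (z : ℝ)| * (max (x : ℝ) (max (y : ℝ) (z : ℝ))) ^ 2) := by
  rw [Finset.sum_product]
  apply Finset.sum_le_sum
  intro x _
  have h1 : ∑ x' ∈ Icc 1 N, ∑ w ∈ prs N (x + x'), hk x w.1 w.2 =
      ∑ w ∈ (Icc 1 N) ×ˢ (Icc 1 N), ∑ x' ∈ (Icc 1 N).filter (fun x' => w.1 + w.2 = x + x'), hk x w.1 w.2 := by
    have e1 : ∀ x' ∈ Icc 1 N, ∑ w ∈ prs N (x + x'), hk x w.1 w.2 =
        ∑ w ∈ (Icc 1 N) ×ˢ (Icc 1 N), if w.1 + w.2 = x + x' then hk x w.1 w.2 else 0 := by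
      intro x' _
      unfold prs
      rw [Finset.sum_filter]
    rw [Finset.sum_congr rfl e1, Finset.sum_comm]
    apply Finset.sum_congr rfl
    intro w _
    rw [Finset.sum_filter]
  have h2 : ∑ x' ∈ Icc 1 N, ∑ w ∈ prs N (x + x'), hk x w.1 w.2 ≤
      ∑ w ∈ (Icc 1 N) ×ˢ (Icc 1 N), hk x w.1 w.2 := by
    rw [h1]
    apply Finset.sum_le_sum
    intro w _
    rw [Finset.sum_const, nsmul_eq_mul]
    have h3 : ((Icc 1 N).filter (fun x' => w.1 + w.2 = x + x')).card ≤ 1 := by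
      rw [Finset.card_le_one]
      intro a ha b hb
      rw [Finset.mem_filter] at ha hb
      omega
    have h4 : ((((Icc 1 N).filter (fun x' => w.1 + w.2 = x + x')).card : ℕ) : ℝ) ≤ 1 := by exact_mod_cast h3
    have h5 := hk_nonneg x w.1 w.2
    nlinarith
  refine h2.trans (le_of_eq ?_)
  rw [Finset.sum_product, Finset.sum_filter]
  apply Finset.sum_congr rfl
  intro y _
  by_cases hy : y ≠ x
  · rw [if_pos hy, Finset.sum_filter]
    apply Finset.sum_congr rfl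
    intro z _
    unfold hk
    by_cases hzx : z ≠ x
    · rw [if_pos ⟨hy, hzx⟩, if_pos hzx]
    · rw [if_neg (fun h => hzx h.2), if_neg hzx]
  · rw [if_neg hy]
    apply Finset.sum_eq_zero
    intro z _
    unfold hk
    rw [if_neg (fun h => hy h.1)]

theorem int_main (hD : S_DIO) (hN : S_NEAR) : S_INT := by
  intro k hk4
  obtain ⟨C, hC0, hC⟩ := hN
  refine ⟨C, hC0, fun N u v huv => ?_⟩
  have hvu : 0 ≤ v - u := by linarith
  have h1 : ∫ t in u..v, Q k N t = ∑ m ∈ range (2 * N + 1), ∑ z ∈ prs N m, ∑ w ∈ prs N m,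
      ∫ t in u..v, Real.cos (2 * Real.pi * t *
        (((z.1 : ℝ) ^ k + (z.2 : ℝ) ^ k) - ((w.1 : ℝ) ^ k + (w.2 : ℝ) ^ k))) := by
    have e0 : (fun t => Q k N t) = fun t => ∑ m ∈ range (2 * N + 1), ∑ z ∈ prs N m, ∑ w ∈ prs N m,
        Real.cos (2 * Real.pi * t * (((z.1 : ℝ) ^ k + (z.2 : ℝ) ^ k) - ((w.1 : ℝ) ^ k + (w.2 : ℝ) ^ k))) := by
      funext t
      unfold Q
      apply Finset.sum_congr rfl
      intro m _
      exact p_sq k N m t
    have ec : ∀ c : ℝ, Continuous fun t : ℝ => Real.cos (2 * Real.pi * t * c) := by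
      intro c
      fun_prop
    rw [e0, intervalIntegral.integral_finset_sum]
    · apply Finset.sum_congr rfl
      intro m _
      rw [intervalIntegral.integral_finset_sum]
      · apply Finset.sum_congr rfl
        intro z _
        rw [intervalIntegral.integral_finset_sum]
        intro w _
        exact (ec _).intervalIntegrable _ _
      · intro z _
        exact (continuous_finset_sum _ (fun w _ => ec _)).intervalIntegrable _ _
    · intro m _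
      exact (continuous_finset_sum _ (fun z _ => continuous_finset_sum _ (fun w _ => ec _))).intervalIntegrable _ _
  rw [h1]
  have h2 : ∑ m ∈ range (2 * N + 1), ∑ z ∈ prs N m, ∑ w ∈ prs N m,
      ∫ t in u..v, Real.cos (2 * Real.pi * t *
        (((z.1 : ℝ) ^ k + (z.2 : ℝ) ^ k) - ((w.1 : ℝ) ^ k + (w.2 : ℝ) ^ k))) =
      ∑ z ∈ (Icc 1 N) ×ˢ (Icc 1 N), ∑ w ∈ prs N (z.1 + z.2),
      ∫ t in u..v, Real.cos (2 * Real.pi * t *
        (((z.1 : ℝ) ^ k + (z.2 : ℝ) ^ k) - ((w.1 : ℝ) ^ k + (w.2 : ℝ) ^ k))) := by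
    rw [← Finset.sum_fiberwise_of_maps_to (s := (Icc 1 N) ×ˢ (Icc 1 N)) (t := range (2 * N + 1))
      (g := fun z : ℕ × ℕ => z.1 + z.2)]
    · apply Finset.sum_congr rfl
      intro m _
      apply Finset.sum_congr rfl
      intro z hz
      unfold prs at hz
      rw [Finset.mem_filter] at hz
      rw [hz.2]
    · intro z hz
      rw [Finset.mem_product, Finset.mem_Icc, Finset.mem_Icc] at hz
      rw [Finset.mem_range]
      omega
  rw [h2]
  have h3 : ∑ z ∈ (Icc 1 N) ×ˢ (Icc 1 N), ∑ w ∈ prs N (z.1 + z.2),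
      ∫ t in u..v, Real.cos (2 * Real.pi * t *
        (((z.1 : ℝ) ^ k + (z.2 : ℝ) ^ k) - ((w.1 : ℝ) ^ k + (w.2 : ℝ) ^ k))) ≤
      ∑ z ∈ (Icc 1 N) ×ˢ (Icc 1 N), ∑ w ∈ prs N (z.1 + z.2),
      ((if w = z then (v - u) else 0) + (if w = (z.2, z.1) then (v - u) else 0) + hk z.1 w.1 w.2) := by
    apply Finset.sum_le_sum
    intro z hz
    apply Finset.sum_le_sum
    intro w hw
    exact term_le hD k N hk4 u v huv z w hz hw
  refine h3.trans ?_
  have h4 : ∀ z ∈ (Icc 1 N) ×ˢ (Icc 1 N), ∑ w ∈ prs N (z.1 + z.2),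
      ((if w = z then (v - u) else 0) + (if w = (z.2, z.1) then (v - u) else 0) + hk z.1 w.1 w.2) ≤
      2 * (v - u) + ∑ w ∈ prs N (z.1 + z.2), hk z.1 w.1 w.2 := by
    intro z _
    rw [Finset.sum_add_distrib, Finset.sum_add_distrib]
    have b1 : ∑ w ∈ prs N (z.1 + z.2), (if w = z then (v - u) else 0) ≤ v - u := by
      rw [Finset.sum_ite_eq']
      split_ifs <;> linarith
    have b2 : ∑ w ∈ prs N (z.1 + z.2), (if w = (z.2, z.1) then (v - u) else 0) ≤ v - u := by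
      rw [Finset.sum_ite_eq']
      split_ifs <;> linarith
    linarith
  refine (Finset.sum_le_sum h4).trans ?_
  rw [Finset.sum_add_distrib, Finset.sum_const, Finset.card_product, Nat.card_Icc, nsmul_eq_mul]
  have h5 := (sum_hk N).trans (hC N)
  have h6 : (((N + 1 - 1) * (N + 1 - 1) : ℕ) : ℝ) = (N : ℝ) ^ 2 := by
    rw [Nat.add_sub_cancel]; push_cast; ring
  rw [h6]
  nlinarith

end Pool.Agent.W928.MW
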