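import Pool.Agent.W928.MW.Sup6
import Pool.Agent.W928.MW.Int

/-! # sixth moment over an interval of integer length -/

set_option autoImplicit false

open Finset MeasureTheory

namespace Pool.Agent.W928.MW

theorem p3_sq (k N m : ℕ) (t : ℝ) : ‖p3 k N m t‖ ^ 2 = ∑ z ∈ trs N m, ∑ w ∈ trs N m,
    Real.cos (2 * Real.pi * t * ((pw k z : ℝ) - (pw k w : ℝ))) := by
  have h1 : ((‖p3 k N m t‖ ^ 2 : ℝ) : ℂ) = p3 k N m t * (starRingEnd ℂ) (p3 k N m t) := by
    rw [Complex.mul_conj, Complex.normSq_eq_norm_sq]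
  have h2 : ‖p3 k N m t‖ ^ 2 = (p3 k N m t * (starRingEnd ℂ) (p3 k N m t)).re := by
    rw [← h1, Complex.ofReal_re]
  rw [h2]
  unfold p3
  rw [map_sum, Finset.sum_mul_sum, Complex.re_sum]
  apply Finset.sum_congr rfl
  intro z _
  rw [Complex.re_sum]
  apply Finset.sum_congr rfl
  intro w _
  rw [e_sub_re]
  congr 1
  ring

theorem int_per (u : ℝ) (l : ℕ) (D : ℤ) :
    ∫ t in u..(u + (l : ℝ)), Real.cos (2 * Real.pi * t * (D : ℝ)) = if D = 0 then (l : ℝ) else 0 := by
  by_cases hD : D = 0
  · rw [if_pos hD, hD]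
    have : (fun t : ℝ => Real.cos (2 * Real.pi * t * ((0 : ℤ) : ℝ))) = fun _ => (1 : ℝ) := by
      funext t
      simp
    rw [this, intervalIntegral.integral_const]
    simp
  · rw [if_neg hD]
    have hD' : (D : ℝ) ≠ 0 := by exact_mod_cast hD
    have h0 : (2 * Real.pi * (D : ℝ)) ≠ 0 := by
      have := Real.pi_ne_zero
      positivity
    have h2 : (fun t : ℝ => Real.cos (2 * Real.pi * t * (D : ℝ))) =
        fun t => Real.cos (2 * Real.pi * (D : ℝ) * t) := by
      funext t
      congr 1
      ring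
    rw [h2, intervalIntegral.integral_comp_mul_left (fun x => Real.cos x) h0, integral_cos]
    have h3 : 2 * Real.pi * (D : ℝ) * (u + (l : ℝ)) =
        2 * Real.pi * (D : ℝ) * u + ((D * (l : ℤ) : ℤ) : ℝ) * (2 * Real.pi) := by
      push_cast; ring
    rw [h3, Real.sin_add_int_mul_two_pi, sub_self, smul_zero]

theorem int6 : S_INT6 := by
  intro k N l u
  have h1 : ∫ t in u..(u + (l : ℝ)), Q3 k N t = ∑ m ∈ range (3 * N + 1), ∑ z ∈ trs N m, ∑ w ∈ trs N m,
      ∫ t in u..(u + (l : ℝ)), Real.cos (2 * Real.pi * t * ((pw k z : ℝ) - (pw k w : ℝ))) := by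
    have e0 : (fun t => Q3 k N t) = fun t => ∑ m ∈ range (3 * N + 1), ∑ z ∈ trs N m, ∑ w ∈ trs N m,
        Real.cos (2 * Real.pi * t * ((pw k z : ℝ) - (pw k w : ℝ))) := by
      funext t
      unfold Q3
      apply Finset.sum_congr rfl
      intro m _
      exact p3_sq k N m t
    have ec : ∀ c : ℝ, Continuous fun t : ℝ => Real.cos (2 * Real.pi * t * c) := by
      intro c
      fun_prop
    rw [e0, intervalIntegral.integral_finset_sum]
    · apply Finset.sum_congr rfl
      intro m _
      rw [intervalIntegral.integral_finset_sum]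
      · apply Finset.sum_congr rfl
        intro z _
        rw [intervalIntegral.integral_finset_sum]
        intro w _
        exact (ec _).intervalIntegrable _ _
      · intro z _
        exact (continuous_finset_sum _ (fun w _ => ec _)).intervalIntegrable _ _
    · intro m _
      exact (continuous_finset_sum _ (fun z _ => continuous_finset_sum _ (fun w _ => ec _))).intervalIntegrable _ _
  rw [h1]
  unfold cnt
  push_cast
  rw [Finset.mul_sum]
  apply Finset.sum_congr rfl
  intro m _
  rw [Finset.mul_sum]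
  apply Finset.sum_congr rfl
  intro z _
  have h3 : ∀ w ∈ trs N m, ∫ t in u..(u + (l : ℝ)), Real.cos (2 * Real.pi * t * ((pw k z : ℝ) - (pw k w : ℝ))) =
      if pw k w = pw k z then (l : ℝ) else 0 := by
    intro w _
    have h4 : ((pw k z : ℝ) - (pw k w : ℝ)) = (((pw k z : ℤ) - (pw k w : ℤ) : ℤ) : ℝ) := by push_cast; ring
    rw [h4, int_per]
    by_cases h5 : pw k w = pw k z
    · rw [if_pos h5, if_pos (by rw [h5]; ring)]
    · rw [if_neg h5, if_neg]
      intro h6
      apply h5
      omega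
  rw [Finset.sum_congr rfl h3, ← Finset.sum_filter, Finset.sum_const, nsmul_eq_mul]
  ring

end Pool.Agent.W928.MW
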