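import Pool.Agent.W928.MW.Six
import Pool.Agent.H510R2.Div

/-! # number of representations, odd `k` -/

set_option autoImplicit false

open Finset MeasureTheory

namespace Pool.Agent.W928.MW

theorem pow3_lt (k a b c : ℕ) (hk : 2 ≤ k) (ha : 1 ≤ a) (hb : 1 ≤ b) (hc : 1 ≤ c) :
    a ^ k + b ^ k + c ^ k < (a + b + c) ^ k := by
  obtain ⟨j, rfl⟩ : ∃ j, k = j + 1 := ⟨k - 1, by omega⟩
  have hj : 1 ≤ j := by omega
  have hs : a + b + c ≠ 0 := by omega
  have h1 : a ^ j < (a + b + c) ^ j := Nat.pow_lt_pow_left (by omega) (by omega)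
  have h2 : b ^ j ≤ (a + b + c) ^ j := Nat.pow_le_pow_left (by omega) j
  have h3 : c ^ j ≤ (a + b + c) ^ j := Nat.pow_le_pow_left (by omega) j
  rw [pow_succ, pow_succ, pow_succ, pow_succ]
  have e1 : a ^ j * a < (a + b + c) ^ j * a := Nat.mul_lt_mul_of_pos_right h1 (by omega)
  have e2 : b ^ j * b ≤ (a + b + c) ^ j * b := Nat.mul_le_mul_right b h2
  have e3 : c ^ j * c ≤ (a + b + c) ^ j * c := Nat.mul_le_mul_right c h3
  calc a ^ j * a + b ^ j * b + c ^ j * c < (a + b + c) ^ j * a + (a + b + c) ^ j * b + (a + b + c) ^ j * c := by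
        omega
    _ = (a + b + c) ^ j * (a + b + c) := by ring

/-- the divisibility -/
theorem dvd_aux (k a b c : ℕ) (hodd : Odd k) :
    (a + b) ∣ (a + b + c) ^ k - (a ^ k + b ^ k + c ^ k) := by
  have h1 : ((a + b : ℕ) : ℤ) ∣ (((a + b + c : ℕ) : ℤ) ^ k - ((c : ℕ) : ℤ) ^ k) := by
    have := sub_dvd_pow_sub_pow (((a + b + c : ℕ) : ℤ)) ((c : ℕ) : ℤ) k
    have h2 : ((a + b + c : ℕ) : ℤ) - (c : ℤ) = ((a + b : ℕ) : ℤ) := by push_cast; ring
    rwa [h2] at this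
  have h3 : ((a + b : ℕ) : ℤ) ∣ ((a : ℤ) ^ k + (b : ℤ) ^ k) := by
    have := Odd.add_dvd_pow_add_pow (a : ℤ) (b : ℤ) hodd
    push_cast
    exact this
  rcases Nat.le_total (a ^ k + b ^ k + c ^ k) ((a + b + c) ^ k) with h | h
  · rw [← Int.natCast_dvd_natCast, Nat.cast_sub h]
    have h4 := dvd_sub h1 h3
    have h5 : (((a + b + c : ℕ) : ℤ) ^ k - ((c : ℕ) : ℤ) ^ k) - ((a : ℤ) ^ k + (b : ℤ) ^ k) =
        (((a + b + c) ^ k : ℕ) : ℤ) - ((a ^ k + b ^ k + c ^ k : ℕ) : ℤ) := by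
      push_cast; ring
    rwa [h5] at h4
  · rw [Nat.sub_eq_zero_of_le h]
    exact dvd_zero _

theorem rep_card (k N m : ℕ) (hodd : Odd k) (hk : 3 ≤ k) (z : ℕ × ℕ × ℕ) (hz : z ∈ trs N m) :
    ((trs N m).filter (fun w => pw k w = pw k z)).card ≤ (m ^ k - pw k z).divisors.card ^ 2 := by
  have hP : m ^ k - pw k z ≠ 0 := by
    unfold trs at hz
    rw [Finset.mem_filter, Finset.mem_product, Finset.mem_product, Finset.mem_Icc, Finset.mem_Icc,
      Finset.mem_Icc] at hz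
    obtain ⟨⟨⟨a1, _⟩, ⟨a2, _⟩, a3, _⟩, a4⟩ := hz
    have := pow3_lt k z.1 z.2.1 z.2.2 (by omega) a1 a2 a3
    rw [a4] at this
    unfold pw
    omega
  have h1 : ((trs N m).filter (fun w => pw k w = pw k z)).card ≤
      ((m ^ k - pw k z).divisors ×ˢ (m ^ k - pw k z).divisors).card := by
    apply Finset.card_le_card_of_injOn (fun w => (w.1 + w.2.1, w.2.1 + w.2.2))
    · intro w hw
      rw [Finset.mem_coe, Finset.mem_filter] at hw
      obtain ⟨hw1, hw2⟩ := hw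
      unfold trs at hw1
      rw [Finset.mem_filter] at hw1
      rw [Finset.mem_coe, Finset.mem_product, Nat.mem_divisors, Nat.mem_divisors]
      refine ⟨⟨?_, hP⟩, ⟨?_, hP⟩⟩
      · rw [← hw2, ← hw1.2]
        exact dvd_aux k w.1 w.2.1 w.2.2 hodd
      · rw [← hw2, ← hw1.2]
        have := dvd_aux k w.2.1 w.2.2 w.1 hodd
        have e1 : w.2.1 + w.2.2 + w.1 = w.1 + w.2.1 + w.2.2 := by ring
        have e2 : w.2.1 ^ k + w.2.2 ^ k + w.1 ^ k = pw k w := by unfold pw; ring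
        rw [e1, e2] at this
        exact this
    · intro w hw w' hw' h
      rw [Finset.mem_coe, Finset.mem_filter] at hw hw'
      have hw1 := hw.1
      have hw1' := hw'.1
      unfold trs at hw1 hw1'
      rw [Finset.mem_filter] at hw1 hw1'
      have b1 := hw1.2
      have b2 := hw1'.2
      simp only [Prod.mk.injEq] at h
      obtain ⟨h3, h4⟩ := h
      obtain ⟨x, y, v⟩ := w
      obtain ⟨x', y', v'⟩ := w'
      simp only at b1 b2 h3 h4
      simp only [Prod.mk.injEq]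
      omega
  rw [Finset.card_product] at h1
  rw [sq]
  exact h1

theorem rep6 : S_REP6 := by
  intro k hodd hk ε hε
  have hk0 : (0 : ℝ) < (k : ℝ) := by
    have : (3 : ℝ) ≤ (k : ℝ) := by exact_mod_cast hk
    linarith
  obtain ⟨C, hC, h⟩ := Pool.Agent.H510R2.divisor_bound (ε / (2 * (k : ℝ))) (by positivity)
  refine ⟨C ^ 2 * (3 : ℝ) ^ ε, by positivity, fun N m hN z hz => ?_⟩
  have hN0 : (0 : ℝ) < (N : ℝ) := by exact_mod_cast hN
  have h1 := rep_card k N m hodd hk z hz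
  have hzz := hz
  unfold trs at hzz
  rw [Finset.mem_filter, Finset.mem_product, Finset.mem_product, Finset.mem_Icc, Finset.mem_Icc,
      Finset.mem_Icc] at hzz
  obtain ⟨⟨⟨a1, a1'⟩, ⟨a2, a2'⟩, a3, a3'⟩, a4⟩ := hzz
  have hP : 1 ≤ m ^ k - pw k z := by
    have := pow3_lt k z.1 z.2.1 z.2.2 (by omega) a1 a2 a3
    rw [a4] at this
    unfold pw
    omega
  have h2 := h _ hP
  have h3 : ((((trs N m).filter (fun w => pw k w = pw k z)).card : ℕ) : ℝ) ≤
      (((m ^ k - pw k z).divisors.card : ℕ) : ℝ) ^ 2 := by exact_mod_cast h1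
  have h4 : (((m ^ k - pw k z : ℕ)) : ℝ) ≤ (3 * (N : ℝ)) ^ k := by
    have : m ^ k - pw k z ≤ (3 * N) ^ k := (Nat.sub_le _ _).trans (Nat.pow_le_pow_left (by omega) k)
    exact_mod_cast this
  have h5 : (((m ^ k - pw k z : ℕ)) : ℝ) ^ (ε / (2 * (k : ℝ))) ≤ (3 * (N : ℝ)) ^ (ε / 2) := by
    refine (Real.rpow_le_rpow (by positivity) h4 (by positivity)).trans (le_of_eq ?_)
    rw [← Real.rpow_natCast, ← Real.rpow_mul (by positivity)]
    congr 1
    field_simp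
  have h6 : (((m ^ k - pw k z).divisors.card : ℕ) : ℝ) ≤ C * (3 * (N : ℝ)) ^ (ε / 2) :=
    h2.trans (mul_le_mul_of_nonneg_left h5 hC.le)
  refine h3.trans ?_
  refine (pow_le_pow_left₀ (by positivity) h6 2).trans (le_of_eq ?_)
  rw [mul_pow, ← Real.rpow_natCast ((3 * (N : ℝ)) ^ (ε / 2)) 2, ← Real.rpow_mul (by positivity)]
  have h7 : ε / 2 * ((2 : ℕ) : ℝ) = ε := by push_cast; ring
  rw [h7, Real.mul_rpow (by norm_num) hN0.le]
  ring

end Pool.Agent.W928.MW
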