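import Pool.Agent.W928.MW.Stm

/-! # supremum over the linear coefficient -/

set_option autoImplicit false

open Finset MeasureTheory

namespace Pool.Agent.W928.MW

theorem e_add (x y : ℝ) : e (x + y) = e x * e y := by
  unfold e
  rw [← Complex.exp_add]
  congr 1
  push_cast
  ring

theorem e_norm (x : ℝ) : ‖e x‖ = 1 := by
  unfold e
  have h : 2 * (Real.pi : ℂ) * Complex.I * (x : ℂ) = ((2 * Real.pi * x : ℝ) : ℂ) * Complex.I := by
    push_cast; ring
  rw [h]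
  exact Complex.norm_exp_ofReal_mul_I _

theorem e_sub_re (x y : ℝ) : (e x * (starRingEnd ℂ) (e y)).re = Real.cos (2 * Real.pi * (x - y)) := by
  unfold e
  rw [← Complex.exp_conj, ← Complex.exp_add]
  have h : 2 * (Real.pi : ℂ) * Complex.I * (x : ℂ) +
      (starRingEnd ℂ) (2 * (Real.pi : ℂ) * Complex.I * (y : ℂ)) =
      ((2 * Real.pi * (x - y) : ℝ) : ℂ) * Complex.I := by
    simp only [map_mul, Complex.conj_ofReal, Complex.conj_I, map_ofNat]
    push_cast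
    ring
  rw [h, Complex.exp_ofReal_mul_I_re]

theorem sm_sq (k N : ℕ) (t ξ : ℝ) :
    sm k N t ξ ^ 2 = ∑ m ∈ range (2 * N + 1), e (ξ * m) * p k N m t := by
  have h1 : sm k N t ξ ^ 2 = ∑ z ∈ (Icc 1 N) ×ˢ (Icc 1 N),
      e (ξ * ((z.1 + z.2 : ℕ) : ℝ)) * e (t * ((z.1 : ℝ) ^ k + (z.2 : ℝ) ^ k)) := by
    rw [sq]
    unfold sm
    rw [Finset.sum_mul_sum, ← Finset.sum_product']
    apply Finset.sum_congr rfl
    intro z _
    rw [← e_add, ← e_add]
    congr 1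
    push_cast
    ring
  rw [h1, ← Finset.sum_fiberwise_of_maps_to (s := (Icc 1 N) ×ˢ (Icc 1 N)) (t := range (2 * N + 1))
    (g := fun z : ℕ × ℕ => z.1 + z.2)]
  · apply Finset.sum_congr rfl
    intro m _
    unfold p prs
    rw [Finset.mul_sum]
    apply Finset.sum_congr rfl
    intro z hz
    rw [Finset.mem_filter] at hz
    rw [hz.2]
  · intro z hz
    rw [Finset.mem_product, Finset.mem_Icc, Finset.mem_Icc] at hz
    rw [Finset.mem_range]
    omega

theorem sup : S_SUP := by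
  intro k N t ξ
  have h1 : ‖sm k N t ξ‖ ^ 4 = ‖sm k N t ξ ^ 2‖ ^ 2 := by
    rw [norm_pow]; ring
  rw [h1, sm_sq]
  have h2 : ‖∑ m ∈ range (2 * N + 1), e (ξ * m) * p k N m t‖ ≤ ∑ m ∈ range (2 * N + 1), ‖p k N m t‖ := by
    refine (norm_sum_le _ _).trans (le_of_eq ?_)
    apply Finset.sum_congr rfl
    intro m _
    rw [norm_mul, e_norm, one_mul]
  have h3 := sq_sum_le_card_mul_sum_sq (s := range (2 * N + 1)) (f := fun m => ‖p k N m t‖)
  rw [Finset.card_range] at h3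
  have h4 : (((2 * N + 1 : ℕ) : ℝ)) = 2 * (N : ℝ) + 1 := by push_cast; ring
  rw [h4] at h3
  refine le_trans ?_ h3
  exact pow_le_pow_left₀ (norm_nonneg _) h2 2

theorem p_sq (k N m : ℕ) (t : ℝ) : ‖p k N m t‖ ^ 2 = ∑ z ∈ prs N m, ∑ w ∈ prs N m,
    Real.cos (2 * Real.pi * t * (((z.1 : ℝ) ^ k + (z.2 : ℝ) ^ k) - ((w.1 : ℝ) ^ k + (w.2 : ℝ) ^ k))) := by
  have h1 : ((‖p k N m t‖ ^ 2 : ℝ) : ℂ) = p k N m t * (starRingEnd ℂ) (p k N m t) := by
    rw [Complex.mul_conj, Complex.normSq_eq_norm_sq]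
  have h2 : ‖p k N m t‖ ^ 2 = (p k N m t * (starRingEnd ℂ) (p k N m t)).re := by
    rw [← h1, Complex.ofReal_re]
  rw [h2]
  unfold p
  rw [map_sum, Finset.sum_mul_sum, Complex.re_sum]
  apply Finset.sum_congr rfl
  intro z _
  rw [Complex.re_sum]
  apply Finset.sum_congr rfl
  intro w _
  rw [e_sub_re]
  congr 1
  ring

end Pool.Agent.W928.MW
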