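import Pool.Agent.W928.MW.Int

/-! # measure of large values in short intervals -/

set_option autoImplicit false

open Finset MeasureTheory

namespace Pool.Agent.W928.MW

theorem e_cont : Continuous e := by
  unfold e
  fun_prop

theorem p_cont (k N m : ℕ) : Continuous (p k N m) := by
  unfold p
  refine continuous_finsetSum _ (fun z _ => ?_)
  exact e_cont.comp (by fun_prop)

theorem Q_cont (k N : ℕ) : Continuous (Q k N) := by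
  unfold Q
  refine continuous_finsetSum _ (fun m _ => ?_)
  exact ((p_cont k N m).norm).pow 2

theorem Q_nonneg (k N : ℕ) (t : ℝ) : 0 ≤ Q k N t := by
  unfold Q
  positivity

theorem meas_le (k N : ℕ) (u v lam B : ℝ) (huv : u ≤ v) (hl : 0 < lam)
    (hB : ∫ t in u..v, Q k N t ≤ B) :
    volume {t : ℝ | t ∈ Set.Icc u v ∧ ∃ ξ : ℝ, lam ≤ ‖sm k N t ξ‖} ≤
      ENNReal.ofReal ((2 * (N : ℝ) + 1) * B / lam ^ 4) := by
  set ρ : ℝ := lam ^ 4 / (2 * (N : ℝ) + 1) with hρ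
  have hN0 : (0 : ℝ) < 2 * (N : ℝ) + 1 := by positivity
  have hρ0 : 0 < ρ := by positivity
  have hsub : {t : ℝ | t ∈ Set.Icc u v ∧ ∃ ξ : ℝ, lam ≤ ‖sm k N t ξ‖} ⊆
      {t : ℝ | ρ ≤ Q k N t} ∩ Set.Icc u v := by
    rintro t ⟨ht, ξ, hξ⟩
    refine ⟨?_, ht⟩
    have h1 := sup k N t ξ
    have h2 : lam ^ 4 ≤ ‖sm k N t ξ‖ ^ 4 := pow_le_pow_left₀ hl.le hξ 4
    simp only [Set.mem_setOf_eq]
    rw [hρ, div_le_iff₀ hN0]
    linarith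
  have hmeas : MeasurableSet {t : ℝ | ρ ≤ Q k N t} :=
    (isClosed_le continuous_const (Q_cont k N)).measurableSet
  have hint : Integrable (Q k N) (volume.restrict (Set.Icc u v)) :=
    ((Q_cont k N).continuousOn).integrableOn_Icc
  have h3 := mul_meas_ge_le_integral_of_nonneg (μ := volume.restrict (Set.Icc u v)) (f := Q k N)
    (Filter.Eventually.of_forall (Q_nonneg k N)) hint ρ
  have h4 : ∫ x, Q k N x ∂(volume.restrict (Set.Icc u v)) = ∫ t in u..v, Q k N t := by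
    rw [intervalIntegral.integral_of_le huv, integral_Icc_eq_integral_Ioc]
  rw [h4] at h3
  have h5 : (volume.restrict (Set.Icc u v)).real {t : ℝ | ρ ≤ Q k N t} =
      (volume ({t : ℝ | ρ ≤ Q k N t} ∩ Set.Icc u v)).toReal := by
    unfold Measure.real
    rw [Measure.restrict_apply hmeas]
  rw [h5] at h3
  have hfin : volume ({t : ℝ | ρ ≤ Q k N t} ∩ Set.Icc u v) ≠ ⊤ := by
    refine ne_top_of_le_ne_top ?_ (measure_mono Set.inter_subset_right)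
    rw [Real.volume_Icc]
    exact ENNReal.ofReal_ne_top
  refine (measure_mono hsub).trans ?_
  rw [← ENNReal.ofReal_toReal hfin]
  apply ENNReal.ofReal_le_ofReal
  have h6 : (volume ({t : ℝ | ρ ≤ Q k N t} ∩ Set.Icc u v)).toReal ≤ B / ρ := by
    rw [le_div_iff₀ hρ0]
    linarith [h3.trans hB, mul_comm ρ (volume ({t : ℝ | ρ ≤ Q k N t} ∩ Set.Icc u v)).toReal]
  refine h6.trans (le_of_eq ?_)
  rw [hρ]
  field_simp

/-- every arc -/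
theorem arc (hI : S_INT) (k : ℕ) (hk : 4 ≤ k) : ∃ C : ℝ, 0 < C ∧ ∀ ε : ℝ, 0 ≤ ε →
    ∀ N : ℕ, 1 ≤ N → ∀ a q : ℕ, 1 ≤ q → q ≤ N →
    volume {t : ℝ | |t - (a : ℝ) / (q : ℝ)| ≤ 1 / (q : ℝ) ^ 2 ∧ ∃ ξ : ℝ,
        (N : ℝ) ^ (1 + ε) * (1 / (q : ℝ) + 1 / (N : ℝ) + (q : ℝ) / (N : ℝ) ^ k) ^ (1 / (k : ℝ)) <
          ‖sm k N t ξ‖} ≤
      ENNReal.ofReal (C * ((q : ℝ) ^ (4 / (k : ℝ)) / (N : ℝ) ^ (1 + 4 * ε)) * (1 / (q : ℝ) ^ 2)) := by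
  obtain ⟨C, hC0, hC⟩ := hI k hk
  refine ⟨3 * (4 + C), by positivity, fun ε hε N hN a q hq1 hqN => ?_⟩
  have hq : (1 : ℝ) ≤ (q : ℝ) := by exact_mod_cast hq1
  have hqN' : (q : ℝ) ≤ (N : ℝ) := by exact_mod_cast hqN
  have hN' : (1 : ℝ) ≤ (N : ℝ) := by exact_mod_cast hN
  have hk0 : (0 : ℝ) < (k : ℝ) := by
    have : (4 : ℝ) ≤ (k : ℝ) := by exact_mod_cast hk
    linarith
  set lam : ℝ := (N : ℝ) ^ (1 + ε) * (1 / (q : ℝ) + 1 / (N : ℝ) + (q : ℝ) / (N : ℝ) ^ k) ^ (1 / (k : ℝ))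
    with hlam
  have hlam0 : 0 < lam := by positivity
  have hlam1 : (N : ℝ) ^ (1 + ε) * (q : ℝ) ^ (-(1 / (k : ℝ))) ≤ lam := by
    rw [hlam]
    apply mul_le_mul_of_nonneg_left _ (by positivity)
    rw [Real.rpow_neg (by positivity), ← Real.inv_rpow (by positivity)]
    apply Real.rpow_le_rpow (by positivity)
    · rw [← one_div]
      have : 0 ≤ 1 / (N : ℝ) + (q : ℝ) / (N : ℝ) ^ k := by positivity
      linarith
    · positivity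
  have hlam4 : (N : ℝ) ^ (4 + 4 * ε) * (q : ℝ) ^ (-(4 / (k : ℝ))) ≤ lam ^ 4 := by
    have h1 : ((N : ℝ) ^ (1 + ε) * (q : ℝ) ^ (-(1 / (k : ℝ)))) ^ 4 ≤ lam ^ 4 :=
      pow_le_pow_left₀ (by positivity) hlam1 4
    refine le_trans (le_of_eq ?_) h1
    rw [mul_pow, ← Real.rpow_natCast ((N : ℝ) ^ (1 + ε)) 4, ← Real.rpow_mul (by positivity),
      ← Real.rpow_natCast ((q : ℝ) ^ (-(1 / (k : ℝ)))) 4, ← Real.rpow_mul (by positivity)]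
    congr 2
    · push_cast; ring
    · push_cast; ring
  have hsub : {t : ℝ | |t - (a : ℝ) / (q : ℝ)| ≤ 1 / (q : ℝ) ^ 2 ∧ ∃ ξ : ℝ, lam < ‖sm k N t ξ‖} ⊆
      {t : ℝ | t ∈ Set.Icc ((a : ℝ) / (q : ℝ) - 1 / (q : ℝ) ^ 2) ((a : ℝ) / (q : ℝ) + 1 / (q : ℝ) ^ 2) ∧
        ∃ ξ : ℝ, lam ≤ ‖sm k N t ξ‖} := by
    rintro t ⟨h1, ξ, h2⟩
    rw [abs_le] at h1
    exact ⟨⟨by linarith [h1.1], by linarith [h1.2]⟩, ξ, h2.le⟩
  refine (measure_mono hsub).trans ?_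
  have hq2 : (0 : ℝ) < 1 / (q : ℝ) ^ 2 := by positivity
  have h3 := hC N ((a : ℝ) / (q : ℝ) - 1 / (q : ℝ) ^ 2) ((a : ℝ) / (q : ℝ) + 1 / (q : ℝ) ^ 2) (by linarith)
  refine (meas_le k N _ _ lam _ (by linarith) hlam0 h3).trans ?_
  apply ENNReal.ofReal_le_ofReal
  have h4 : (1 : ℝ) ≤ (N : ℝ) ^ 2 * (1 / (q : ℝ) ^ 2) := by
    rw [mul_one_div, le_div_iff₀ (by positivity), one_mul]
    exact pow_le_pow_left₀ (by positivity) hqN' 2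
  have h5 : 2 * (N : ℝ) ^ 2 * (((a : ℝ) / (q : ℝ) + 1 / (q : ℝ) ^ 2) - ((a : ℝ) / (q : ℝ) - 1 / (q : ℝ) ^ 2)) + C
      ≤ (4 + C) * ((N : ℝ) ^ 2 * (1 / (q : ℝ) ^ 2)) := by
    nlinarith
  have h6 : (2 * (N : ℝ) + 1) ≤ 3 * (N : ℝ) := by linarith
  have h7 : (2 * (N : ℝ) + 1) * (2 * (N : ℝ) ^ 2 * (((a : ℝ) / (q : ℝ) + 1 / (q : ℝ) ^ 2) -
      ((a : ℝ) / (q : ℝ) - 1 / (q : ℝ) ^ 2)) + C) ≤
      (3 * (N : ℝ)) * ((4 + C) * ((N : ℝ) ^ 2 * (1 / (q : ℝ) ^ 2))) := by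
    apply mul_le_mul h6 h5 _ (by positivity)
    have : (0:ℝ) ≤ (((a : ℝ) / (q : ℝ) + 1 / (q : ℝ) ^ 2) - ((a : ℝ) / (q : ℝ) - 1 / (q : ℝ) ^ 2)) := by linarith
    positivity
  calc (2 * (N : ℝ) + 1) * (2 * (N : ℝ) ^ 2 * (((a : ℝ) / (q : ℝ) + 1 / (q : ℝ) ^ 2) -
      ((a : ℝ) / (q : ℝ) - 1 / (q : ℝ) ^ 2)) + C) / lam ^ 4
      ≤ (3 * (N : ℝ)) * ((4 + C) * ((N : ℝ) ^ 2 * (1 / (q : ℝ) ^ 2))) /
        ((N : ℝ) ^ (4 + 4 * ε) * (q : ℝ) ^ (-(4 / (k : ℝ)))) := by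
        apply div_le_div₀ (by positivity) h7 (by positivity) hlam4
    _ = 3 * (4 + C) * ((q : ℝ) ^ (4 / (k : ℝ)) / (N : ℝ) ^ (1 + 4 * ε)) * (1 / (q : ℝ) ^ 2) := by
        rw [Real.rpow_neg (by positivity)]
        have e1 : (N : ℝ) ^ (4 + 4 * ε) = (N : ℝ) ^ 3 * (N : ℝ) ^ (1 + 4 * ε) := by
          rw [← Real.rpow_natCast (N : ℝ) 3, ← Real.rpow_add (by positivity)]
          congr 1
          push_cast; ring
        rw [e1]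
        have a1 : (N : ℝ) ^ (1 + 4 * ε) ≠ 0 := by positivity
        have a2 : (q : ℝ) ^ (4 / (k : ℝ)) ≠ 0 := by positivity
        have a3 : (N : ℝ) ≠ 0 := by positivity
        have a4 : (q : ℝ) ≠ 0 := by positivity
        field_simp

end Pool.Agent.W928.MW
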