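import Pool.Agent.W928.MW.Arc

/-! # Hausdorff dimension of the exceptional set -/

set_option autoImplicit false

open Finset MeasureTheory

namespace Pool.Agent.W928.MW

theorem e_lip (x y : ℝ) : ‖e x - e y‖ ≤ 2 * Real.pi * |x - y| := by
  have h1 : e x = e y * e (x - y) := by
    rw [← e_add]
    congr 1
    ring
  have h2 : e x - e y = e y * (e (x - y) - 1) := by
    rw [h1]; ring
  rw [h2, norm_mul, e_norm, one_mul]
  have h3 : e (x - y) = Complex.exp (Complex.I * ((2 * Real.pi * (x - y) : ℝ) : ℂ)) := by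
    unfold e
    congr 1
    push_cast
    ring
  rw [h3]
  refine (Real.norm_exp_I_mul_ofReal_sub_one_le).trans ?_
  rw [Real.norm_eq_abs, abs_mul, abs_of_pos (by positivity : (0:ℝ) < 2 * Real.pi)]

theorem sm_lip (k N : ℕ) (t t' ξ : ℝ) :
    ‖sm k N t ξ - sm k N t' ξ‖ ≤ 2 * Real.pi * |t - t'| * (N : ℝ) ^ (k + 1) := by
  unfold sm
  rw [← Finset.sum_sub_distrib]
  refine (norm_sum_le _ _).trans ?_
  have h1 : ∀ n ∈ Icc 1 N, ‖e (t * (n : ℝ) ^ k + ξ * (n : ℝ)) - e (t' * (n : ℝ) ^ k + ξ * (n : ℝ))‖ ≤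
      2 * Real.pi * |t - t'| * (N : ℝ) ^ k := by
    intro n hn
    rw [Finset.mem_Icc] at hn
    refine (e_lip _ _).trans ?_
    have h2 : t * (n : ℝ) ^ k + ξ * (n : ℝ) - (t' * (n : ℝ) ^ k + ξ * (n : ℝ)) = (t - t') * (n : ℝ) ^ k := by
      ring
    rw [h2, abs_mul, abs_of_nonneg (by positivity : (0:ℝ) ≤ (n : ℝ) ^ k)]
    have h3 : (n : ℝ) ^ k ≤ (N : ℝ) ^ k := pow_le_pow_left₀ (by positivity) (by exact_mod_cast hn.2) k
    have h4 : 0 ≤ 2 * Real.pi * |t - t'| := by positivity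
    calc 2 * Real.pi * (|t - t'| * (n : ℝ) ^ k) = 2 * Real.pi * |t - t'| * (n : ℝ) ^ k := by ring
      _ ≤ 2 * Real.pi * |t - t'| * (N : ℝ) ^ k := mul_le_mul_of_nonneg_left h3 h4
  refine (Finset.sum_le_sum h1).trans (le_of_eq ?_)
  rw [Finset.sum_const, Nat.card_Icc, Nat.add_sub_cancel, nsmul_eq_mul]
  ring

theorem sm_le (k N : ℕ) (t ξ : ℝ) : ‖sm k N t ξ‖ ≤ N := by
  unfold sm
  refine (norm_sum_le _ _).trans (le_of_eq ?_)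
  simp only [e_norm]
  rw [Finset.sum_const, Nat.card_Icc, Nat.add_sub_cancel, nsmul_eq_mul, mul_one]

/-- bad parameters at scale `2^i` -/
def Bd (k : ℕ) (ε : ℝ) (j : ℤ) (i : ℕ) : Set ℝ :=
  {t : ℝ | t ∈ Set.Icc (j : ℝ) ((j : ℝ) + 1) ∧ ∃ M : ℕ, M ≤ 2 ^ i ∧ 2 ^ i ≤ 2 * M ∧ ∃ ξ : ℝ,
    (M : ℝ) ^ (1 - 1 / (k : ℝ) + ε) < ‖sm k M t ξ‖}

theorem ev_pow (c : ℝ) (hc : 0 < c) (K : ℝ) : ∃ i0 : ℕ, ∀ i : ℕ, i0 ≤ i → K ≤ ((2 : ℝ) ^ i) ^ c := by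
  have h1 : (1 : ℝ) < (2 : ℝ) ^ c := Real.one_lt_rpow (by norm_num) hc
  have h2 := tendsto_pow_atTop_atTop_of_one_lt h1
  have h3 := (h2.eventually_ge_atTop K)
  rw [Filter.eventually_atTop] at h3
  obtain ⟨i0, h⟩ := h3
  refine ⟨i0, fun i hi => ?_⟩
  have h4 := h i hi
  rw [← Real.rpow_natCast, ← Real.rpow_mul (by norm_num), mul_comm, Real.rpow_mul (by norm_num),
    Real.rpow_natCast]
  exact h4

theorem ev_log (c : ℝ) (hc : 0 < c) (K : ℝ) :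
    ∃ i0 : ℕ, ∀ i : ℕ, i0 ≤ i → K * (4 + 4 * Real.log ((2 : ℝ) ^ i)) ≤ ((2 : ℝ) ^ i) ^ c := by
  obtain ⟨i1, h1⟩ := ev_pow (c / 2) (by positivity) (|K| * (4 + 8 / c))
  refine ⟨i1, fun i hi => ?_⟩
  have h2 := h1 i hi
  have hX : (1 : ℝ) ≤ (2 : ℝ) ^ i := one_le_pow₀ (by norm_num)
  have hX0 : (0 : ℝ) < (2 : ℝ) ^ i := by positivity
  have h3 : Real.log ((2 : ℝ) ^ i) ≤ ((2 : ℝ) ^ i) ^ (c / 2) / (c / 2) :=
    Real.log_le_rpow_div hX0.le (by positivity)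
  have h4 : (1 : ℝ) ≤ ((2 : ℝ) ^ i) ^ (c / 2) := Real.one_le_rpow hX (by positivity)
  have h5 : ((2 : ℝ) ^ i) ^ c = ((2 : ℝ) ^ i) ^ (c / 2) * ((2 : ℝ) ^ i) ^ (c / 2) := by
    rw [← Real.rpow_add hX0]; congr 1; ring
  have h6 : 4 + 4 * Real.log ((2 : ℝ) ^ i) ≤ (4 + 8 / c) * ((2 : ℝ) ^ i) ^ (c / 2) := by
    have : ((2 : ℝ) ^ i) ^ (c / 2) / (c / 2) = (2 / c) * ((2 : ℝ) ^ i) ^ (c / 2) := by
      field_simp
    rw [this] at h3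
    have h7 : (8 / c) = 4 * (2 / c) := by ring
    rw [h7]
    nlinarith
  have h8 : 0 ≤ 4 + 4 * Real.log ((2 : ℝ) ^ i) := by
    have := Real.log_nonneg hX
    linarith
  calc K * (4 + 4 * Real.log ((2 : ℝ) ^ i)) ≤ |K| * (4 + 4 * Real.log ((2 : ℝ) ^ i)) :=
        mul_le_mul_of_nonneg_right (le_abs_self K) h8
    _ ≤ |K| * ((4 + 8 / c) * ((2 : ℝ) ^ i) ^ (c / 2)) := mul_le_mul_of_nonneg_left h6 (abs_nonneg K)
    _ = (|K| * (4 + 8 / c)) * ((2 : ℝ) ^ i) ^ (c / 2) := by ring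
    _ ≤ ((2 : ℝ) ^ i) ^ (c / 2) * ((2 : ℝ) ^ i) ^ (c / 2) := mul_le_mul_of_nonneg_right h2 (by positivity)
    _ = ((2 : ℝ) ^ i) ^ c := h5.symm

theorem cover (hI : S_INT) (hM : S_MAX) (hC : S_COV) (k : ℕ) (hk : 4 ≤ k) (ε ε' : ℝ) (hε : 0 < ε)
    (hεk : ε < 1 / (k : ℝ)) (hε' : 0 < ε') (hεε : ε' ≤ ε / 4) (j : ℤ) :
    ∃ i0 : ℕ, ∀ i : ℕ, i0 ≤ i → ∃ S : Finset ℝ,
      (S.card : ℝ) ≤ ((2 : ℝ) ^ i) ^ (-1 + 4 / (k : ℝ) - 4 * ε + 5 * ε' + ((k : ℝ) + 1 / (k : ℝ) - ε + 2 * ε')) ∧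
      Bd k ε j i ⊆ ⋃ x ∈ S, Set.Icc x (x + ((2 : ℝ) ^ i) ^ (-((k : ℝ) + 1 / (k : ℝ) - ε + 2 * ε'))) := by
  obtain ⟨C, hC0, hCI⟩ := hI k hk
  have hk4 : (4 : ℝ) ≤ (k : ℝ) := by exact_mod_cast hk
  have hk0 : (0 : ℝ) < (k : ℝ) := by linarith
  set θ : ℝ := 1 - 1 / (k : ℝ) + ε with hθ
  have hk1 : 1 / (k : ℝ) ≤ 1 / 4 := one_div_le_one_div_of_le (by norm_num) hk4
  have hk1' : 0 < 1 / (k : ℝ) := by positivity
  have hθ0 : 0 < θ := by rw [hθ]; linarith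
  obtain ⟨i1, h1⟩ := ev_log ε' hε' ((2 : ℝ) ^ θ)
  obtain ⟨i2, h2⟩ := ev_pow ε' hε' (4 * Real.pi)
  obtain ⟨i3, h3⟩ := ev_pow ε' hε' (48 * (6 + C))
  refine ⟨i1 + i2 + i3, fun i hi => ?_⟩
  have g1 := h1 i (by omega)
  have g2 := h2 i (by omega)
  have g3 := h3 i (by omega)
  set X : ℝ := (2 : ℝ) ^ i with hX
  have hX1 : (1 : ℝ) ≤ X := one_le_pow₀ (by norm_num)
  have hX0 : (0 : ℝ) < X := by positivity
  have hNX : (((2 ^ i : ℕ) : ℕ) : ℝ) = X := by push_cast; rfl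
  set L : ℝ := (k : ℝ) + 1 / (k : ℝ) - ε + 2 * ε' with hL
  have hL0 : 0 < L := by rw [hL]; linarith
  set μ : ℝ := X ^ (θ - ε') with hμ
  have hμ0 : 0 < μ := by positivity
  set δ : ℝ := X ^ (-L) with hδ
  have hδ0 : 0 < δ := by positivity
  have hδ1 : δ ≤ 1 := by
    rw [hδ]
    exact Real.rpow_le_one_of_one_le_of_nonpos hX1 (by linarith)
  -- the maximal inequality
  have key1 : ∀ t ∈ Bd k ε j i, ∃ η : ℝ, μ < ‖sm k (2 ^ i) t η‖ := by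
    rintro t ⟨_, M, hM1, hM2, ξ, hξ⟩
    by_contra hcon
    push_neg at hcon
    have h4 := hM k (2 ^ i) M t μ (Nat.one_le_two_pow) hM1 hcon ξ
    rw [hNX] at h4
    have h5 : (X / 2) ^ θ ≤ (M : ℝ) ^ θ := by
      apply Real.rpow_le_rpow (by positivity) _ hθ0.le
      have : ((2 ^ i : ℕ) : ℝ) ≤ ((2 * M : ℕ) : ℝ) := by exact_mod_cast hM2
      rw [hNX] at this
      push_cast at this
      linarith
    have h6 : (X / 2) ^ θ = X ^ θ / (2 : ℝ) ^ θ := Real.div_rpow hX0.le (by norm_num) θ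
    have h7 : (4 + 4 * Real.log X) * μ ≤ X ^ θ / (2 : ℝ) ^ θ := by
      rw [le_div_iff₀ (by positivity)]
      have h8 : X ^ θ = X ^ ε' * μ := by
        rw [hμ, ← Real.rpow_add hX0]
        congr 1
        ring
      rw [h8]
      calc (4 + 4 * Real.log X) * μ * (2 : ℝ) ^ θ = ((2 : ℝ) ^ θ * (4 + 4 * Real.log X)) * μ := by ring
        _ ≤ X ^ ε' * μ := mul_le_mul_of_nonneg_right g1 hμ0.le
    have h9 : (M : ℝ) ^ θ < (M : ℝ) ^ θ := by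
      calc (M : ℝ) ^ θ < ‖sm k M t ξ‖ := hξ
        _ ≤ (4 + 4 * Real.log X) * μ := h4
        _ ≤ X ^ θ / (2 : ℝ) ^ θ := h7
        _ = (X / 2) ^ θ := h6.symm
        _ ≤ (M : ℝ) ^ θ := h5
    exact lt_irrefl _ h9
  -- local constancy
  set F : Set ℝ := {t : ℝ | t ∈ Set.Icc ((j : ℝ) - 1) ((j : ℝ) + 2) ∧ ∃ η : ℝ, μ / 2 ≤ ‖sm k (2 ^ i) t η‖} with hF
  have key2 : ∀ t ∈ Bd k ε j i, ∀ t' : ℝ, |t' - t| ≤ δ → t' ∈ F := by
    intro t ht t' htt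
    obtain ⟨η, hη⟩ := key1 t ht
    have ht1 := ht.1
    have htt' := abs_le.mp htt
    refine ⟨⟨by linarith [ht1.1, htt'.1], by linarith [ht1.2, htt'.2]⟩, η, ?_⟩
    have h4 := sm_lip k (2 ^ i) t t' η
    rw [hNX] at h4
    have h5 : ‖sm k (2 ^ i) t η‖ ≤ ‖sm k (2 ^ i) t η - sm k (2 ^ i) t' η‖ + ‖sm k (2 ^ i) t' η‖ := by
      have := norm_add_le (sm k (2 ^ i) t η - sm k (2 ^ i) t' η) (sm k (2 ^ i) t' η)
      rwa [sub_add_cancel] at this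
    have h6 : 2 * Real.pi * |t - t'| * X ^ (k + 1) ≤ μ / 2 := by
      have h7 : |t - t'| ≤ δ := by rw [abs_sub_comm]; exact htt
      have h8 : 2 * Real.pi * |t - t'| * X ^ (k + 1) ≤ 2 * Real.pi * δ * X ^ (k + 1) := by
        have : 0 ≤ X ^ (k + 1) := by positivity
        gcongr
      refine h8.trans ?_
      have h9 : X ^ (k + 1) = X ^ ((k : ℝ) + 1) := by
        rw [← Real.rpow_natCast]
        congr 1
        push_cast; rfl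
      have h10 : δ * X ^ ((k : ℝ) + 1) * X ^ ε' = μ := by
        rw [hδ, hμ, ← Real.rpow_add hX0, ← Real.rpow_add hX0]
        congr 1
        rw [hL, hθ]; ring
      rw [h9]
      have h11 : 0 < δ * X ^ ((k : ℝ) + 1) := by positivity
      have h12 : 4 * Real.pi * (δ * X ^ ((k : ℝ) + 1)) ≤ X ^ ε' * (δ * X ^ ((k : ℝ) + 1)) :=
        mul_le_mul_of_nonneg_right g2 h11.le
      nlinarith
    linarith
  -- measure of F
  have h4 := hCI (2 ^ i) ((j : ℝ) - 1) ((j : ℝ) + 2) (by linarith)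
  rw [hNX] at h4
  have h5 := meas_le k (2 ^ i) ((j : ℝ) - 1) ((j : ℝ) + 2) (μ / 2) _ (by linarith) (by positivity) h4
  rw [hNX] at h5
  set V : ℝ := 48 * (6 + C) * (X ^ 3 / μ ^ 4) with hV
  have h6 : volume F ≤ ENNReal.ofReal V := by
    refine h5.trans (ENNReal.ofReal_le_ofReal ?_)
    rw [hV]
    have h7 : (2 * X + 1) * (2 * X ^ 2 * ((j : ℝ) + 2 - ((j : ℝ) - 1)) + C) ≤ 3 * (6 + C) * X ^ 3 := by
      have a1 : 2 * X + 1 ≤ 3 * X := by linarith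
      have a2 : 2 * X ^ 2 * ((j : ℝ) + 2 - ((j : ℝ) - 1)) + C ≤ (6 + C) * X ^ 2 := by
        have : (1 : ℝ) ≤ X ^ 2 := one_le_pow₀ hX1
        nlinarith
      have a3 : 0 ≤ 2 * X ^ 2 * ((j : ℝ) + 2 - ((j : ℝ) - 1)) + C := by
        have : (j : ℝ) + 2 - ((j : ℝ) - 1) = 3 := by ring
        rw [this]; positivity
      calc (2 * X + 1) * (2 * X ^ 2 * ((j : ℝ) + 2 - ((j : ℝ) - 1)) + C) ≤ (3 * X) * ((6 + C) * X ^ 2) :=
            mul_le_mul a1 a2 a3 (by positivity)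
        _ = 3 * (6 + C) * X ^ 3 := by ring
    have h8 : (μ / 2) ^ 4 = μ ^ 4 / 16 := by ring
    rw [h8]
    calc (2 * X + 1) * (2 * X ^ 2 * ((j : ℝ) + 2 - ((j : ℝ) - 1)) + C) / (μ ^ 4 / 16)
        ≤ 3 * (6 + C) * X ^ 3 / (μ ^ 4 / 16) := by
          apply div_le_div_of_nonneg_right h7 (by positivity)
      _ = 48 * (6 + C) * (X ^ 3 / μ ^ 4) := by field_simp; ring
  obtain ⟨S, hS1, hS2⟩ := hC (Bd k ε j i) F δ V (j : ℝ) ((j : ℝ) + 1) hδ0 (by positivity)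
    (fun t ht => ht.1) key2 h6
  refine ⟨S, hS1.trans ?_, hS2⟩
  have h9 : μ ^ 4 = X ^ (4 * (θ - ε')) := by
    rw [hμ, ← Real.rpow_natCast, ← Real.rpow_mul hX0.le]
    congr 1
    push_cast; ring
  have h10 : X ^ 3 = X ^ (3 : ℝ) := by
    rw [← Real.rpow_natCast]; norm_num
  rw [hV, h9, h10, hδ, ← Real.rpow_sub hX0, mul_div_assoc, ← Real.rpow_sub hX0]
  calc 48 * (6 + C) * X ^ (3 - 4 * (θ - ε') - -L) ≤ X ^ ε' * X ^ (3 - 4 * (θ - ε') - -L) :=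
        mul_le_mul_of_nonneg_right g3 (by positivity)
    _ = X ^ (-1 + 4 / (k : ℝ) - 4 * ε + 5 * ε' + L) := by
        rw [← Real.rpow_add hX0]
        congr 1
        rw [hθ]; ring

end Pool.Agent.W928.MW
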