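import Pool.Agent.W928.MW.Sup6
import Pool.Agent.W928.MW.Dim

/-! # Hausdorff dimension of the exceptional set, sixth moment, odd `k ≥ 3` -/

set_option autoImplicit false

open Finset MeasureTheory

namespace Pool.Agent.W928.MW

theorem p3_cont (k N m : ℕ) : Continuous (p3 k N m) := by
  unfold p3
  refine continuous_finsetSum _ (fun z _ => ?_)
  exact e_cont.comp (by fun_prop)

theorem Q3_cont (k N : ℕ) : Continuous (Q3 k N) := by
  unfold Q3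
  refine continuous_finsetSum _ (fun m _ => ?_)
  exact ((p3_cont k N m).norm).pow 2

theorem Q3_nonneg (k N : ℕ) (t : ℝ) : 0 ≤ Q3 k N t := by
  unfold Q3
  positivity

theorem meas_le6 (k N : ℕ) (u v lam B : ℝ) (huv : u ≤ v) (hl : 0 < lam)
    (hB : ∫ t in u..v, Q3 k N t ≤ B) :
    volume {t : ℝ | t ∈ Set.Icc u v ∧ ∃ ξ : ℝ, lam ≤ ‖sm k N t ξ‖} ≤
      ENNReal.ofReal ((3 * (N : ℝ) + 1) * B / lam ^ 6) := by
  set ρ : ℝ := lam ^ 6 / (3 * (N : ℝ) + 1) with hρ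
  have hN0 : (0 : ℝ) < 3 * (N : ℝ) + 1 := by positivity
  have hρ0 : 0 < ρ := by positivity
  have hsub : {t : ℝ | t ∈ Set.Icc u v ∧ ∃ ξ : ℝ, lam ≤ ‖sm k N t ξ‖} ⊆
      {t : ℝ | ρ ≤ Q3 k N t} ∩ Set.Icc u v := by
    rintro t ⟨ht, ξ, hξ⟩
    refine ⟨?_, ht⟩
    have h1 := sup6 k N t ξ
    have h2 : lam ^ 6 ≤ ‖sm k N t ξ‖ ^ 6 := pow_le_pow_left₀ hl.le hξ 6
    simp only [Set.mem_setOf_eq]
    rw [hρ, div_le_iff₀ hN0]
    linarith
  have hmeas : MeasurableSet {t : ℝ | ρ ≤ Q3 k N t} :=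
    (isClosed_le continuous_const (Q3_cont k N)).measurableSet
  have hint : Integrable (Q3 k N) (volume.restrict (Set.Icc u v)) :=
    ((Q3_cont k N).continuousOn).integrableOn_Icc
  have h3 := mul_meas_ge_le_integral_of_nonneg (μ := volume.restrict (Set.Icc u v)) (f := Q3 k N)
    (Filter.Eventually.of_forall (Q3_nonneg k N)) hint ρ
  have h4 : ∫ x, Q3 k N x ∂(volume.restrict (Set.Icc u v)) = ∫ t in u..v, Q3 k N t := by
    rw [intervalIntegral.integral_of_le huv, integral_Icc_eq_integral_Ioc]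
  rw [h4] at h3
  have h5 : (volume.restrict (Set.Icc u v)).real {t : ℝ | ρ ≤ Q3 k N t} =
      (volume ({t : ℝ | ρ ≤ Q3 k N t} ∩ Set.Icc u v)).toReal := by
    unfold Measure.real
    rw [Measure.restrict_apply hmeas]
  rw [h5] at h3
  have hfin : volume ({t : ℝ | ρ ≤ Q3 k N t} ∩ Set.Icc u v) ≠ ⊤ := by
    refine ne_top_of_le_ne_top ?_ (measure_mono Set.inter_subset_right)
    rw [Real.volume_Icc]
    exact ENNReal.ofReal_ne_top
  refine (measure_mono hsub).trans ?_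
  rw [← ENNReal.ofReal_toReal hfin]
  apply ENNReal.ofReal_le_ofReal
  have h6 : (volume ({t : ℝ | ρ ≤ Q3 k N t} ∩ Set.Icc u v)).toReal ≤ B / ρ := by
    rw [le_div_iff₀ hρ0]
    linarith [h3.trans hB, mul_comm ρ (volume ({t : ℝ | ρ ≤ Q3 k N t} ∩ Set.Icc u v)).toReal]
  refine h6.trans (le_of_eq ?_)
  rw [hρ]
  field_simp

theorem cover6 (hI : S_INT6) (hR : S_REP6) (hM : S_MAX) (hC : S_COV) (k : ℕ) (hodd : Odd k) (hk : 3 ≤ k) (ε ε' : ℝ) (hε : 0 < ε)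
    (hεk : ε < 1 / (k : ℝ)) (hε' : 0 < ε') (hεε : ε' ≤ ε / 4) (j : ℤ) :
    ∃ i0 : ℕ, ∀ i : ℕ, i0 ≤ i → ∃ S : Finset ℝ,
      (S.card : ℝ) ≤ ((2 : ℝ) ^ i) ^ (-2 + 6 / (k : ℝ) - 6 * ε + 8 * ε' + ((k : ℝ) + 1 / (k : ℝ) - ε + 2 * ε')) ∧
      Bd k ε j i ⊆ ⋃ x ∈ S, Set.Icc x (x + ((2 : ℝ) ^ i) ^ (-((k : ℝ) + 1 / (k : ℝ) - ε + 2 * ε'))) := by
  obtain ⟨C, hC0, hCI⟩ := cnt_le hR k hodd hk ε' hε'
  have hk4 : (3 : ℝ) ≤ (k : ℝ) := by exact_mod_cast hk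
  have hk0 : (0 : ℝ) < (k : ℝ) := by linarith
  set θ : ℝ := 1 - 1 / (k : ℝ) + ε with hθ
  have hk1 : 1 / (k : ℝ) ≤ 1 / 3 := one_div_le_one_div_of_le (by norm_num) hk4
  have hk1' : 0 < 1 / (k : ℝ) := by positivity
  have hθ0 : 0 < θ := by rw [hθ]; linarith
  obtain ⟨i1, h1⟩ := ev_log ε' hε' ((2 : ℝ) ^ θ)
  obtain ⟨i2, h2⟩ := ev_pow ε' hε' (4 * Real.pi)
  obtain ⟨i3, h3⟩ := ev_pow ε' hε' (768 * C)
  refine ⟨i1 + i2 + i3, fun i hi => ?_⟩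
  have g1 := h1 i (by omega)
  have g2 := h2 i (by omega)
  have g3 := h3 i (by omega)
  set X : ℝ := (2 : ℝ) ^ i with hX
  have hX1 : (1 : ℝ) ≤ X := one_le_pow₀ (by norm_num)
  have hX0 : (0 : ℝ) < X := by positivity
  have hNX : (((2 ^ i : ℕ) : ℕ) : ℝ) = X := by push_cast; rfl
  set L : ℝ := (k : ℝ) + 1 / (k : ℝ) - ε + 2 * ε' with hL
  have hL0 : 0 < L := by rw [hL]; linarith
  set μ : ℝ := X ^ (θ - ε') with hμ
  have hμ0 : 0 < μ := by positivity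
  set δ : ℝ := X ^ (-L) with hδ
  have hδ0 : 0 < δ := by positivity
  have hδ1 : δ ≤ 1 := by
    rw [hδ]
    exact Real.rpow_le_one_of_one_le_of_nonpos hX1 (by linarith)
  -- the maximal inequality
  have key1 : ∀ t ∈ Bd k ε j i, ∃ η : ℝ, μ < ‖sm k (2 ^ i) t η‖ := by
    rintro t ⟨_, M, hM1, hM2, ξ, hξ⟩
    by_contra hcon
    push_neg at hcon
    have h4 := hM k (2 ^ i) M t μ (Nat.one_le_two_pow) hM1 hcon ξ
    rw [hNX] at h4
    have h5 : (X / 2) ^ θ ≤ (M : ℝ) ^ θ := by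
      apply Real.rpow_le_rpow (by positivity) _ hθ0.le
      have : ((2 ^ i : ℕ) : ℝ) ≤ ((2 * M : ℕ) : ℝ) := by exact_mod_cast hM2
      rw [hNX] at this
      push_cast at this
      linarith
    have h6 : (X / 2) ^ θ = X ^ θ / (2 : ℝ) ^ θ := Real.div_rpow hX0.le (by norm_num) θ
    have h7 : (4 + 4 * Real.log X) * μ ≤ X ^ θ / (2 : ℝ) ^ θ := by
      rw [le_div_iff₀ (by positivity)]
      have h8 : X ^ θ = X ^ ε' * μ := by
        rw [hμ, ← Real.rpow_add hX0]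
        congr 1
        ring
      rw [h8]
      calc (4 + 4 * Real.log X) * μ * (2 : ℝ) ^ θ = ((2 : ℝ) ^ θ * (4 + 4 * Real.log X)) * μ := by ring
        _ ≤ X ^ ε' * μ := mul_le_mul_of_nonneg_right g1 hμ0.le
    have h9 : (M : ℝ) ^ θ < (M : ℝ) ^ θ := by
      calc (M : ℝ) ^ θ < ‖sm k M t ξ‖ := hξ
        _ ≤ (4 + 4 * Real.log X) * μ := h4
        _ ≤ X ^ θ / (2 : ℝ) ^ θ := h7
        _ = (X / 2) ^ θ := h6.symm
        _ ≤ (M : ℝ) ^ θ := h5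
    exact lt_irrefl _ h9
  -- local constancy
  set F : Set ℝ := {t : ℝ | t ∈ Set.Icc ((j : ℝ) - 1) ((j : ℝ) + 2) ∧ ∃ η : ℝ, μ / 2 ≤ ‖sm k (2 ^ i) t η‖} with hF
  have key2 : ∀ t ∈ Bd k ε j i, ∀ t' : ℝ, |t' - t| ≤ δ → t' ∈ F := by
    intro t ht t' htt
    obtain ⟨η, hη⟩ := key1 t ht
    have ht1 := ht.1
    have htt' := abs_le.mp htt
    refine ⟨⟨by linarith [ht1.1, htt'.1], by linarith [ht1.2, htt'.2]⟩, η, ?_⟩
    have h4 := sm_lip k (2 ^ i) t t' η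
    rw [hNX] at h4
    have h5 : ‖sm k (2 ^ i) t η‖ ≤ ‖sm k (2 ^ i) t η - sm k (2 ^ i) t' η‖ + ‖sm k (2 ^ i) t' η‖ := by
      have := norm_add_le (sm k (2 ^ i) t η - sm k (2 ^ i) t' η) (sm k (2 ^ i) t' η)
      rwa [sub_add_cancel] at this
    have h6 : 2 * Real.pi * |t - t'| * X ^ (k + 1) ≤ μ / 2 := by
      have h7 : |t - t'| ≤ δ := by rw [abs_sub_comm]; exact htt
      have h8 : 2 * Real.pi * |t - t'| * X ^ (k + 1) ≤ 2 * Real.pi * δ * X ^ (k + 1) := by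
        have : 0 ≤ X ^ (k + 1) := by positivity
        gcongr
      refine h8.trans ?_
      have h9 : X ^ (k + 1) = X ^ ((k : ℝ) + 1) := by
        rw [← Real.rpow_natCast]
        congr 1
        push_cast; rfl
      have h10 : δ * X ^ ((k : ℝ) + 1) * X ^ ε' = μ := by
        rw [hδ, hμ, ← Real.rpow_add hX0, ← Real.rpow_add hX0]
        congr 1
        rw [hL, hθ]; ring
      rw [h9]
      have h11 : 0 < δ * X ^ ((k : ℝ) + 1) := by positivity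
      have h12 : 4 * Real.pi * (δ * X ^ ((k : ℝ) + 1)) ≤ X ^ ε' * (δ * X ^ ((k : ℝ) + 1)) :=
        mul_le_mul_of_nonneg_right g2 h11.le
      nlinarith
    linarith
  -- measure of F
  have h4 := hI k (2 ^ i) 3 ((j : ℝ) - 1)
  have h4' : ((j : ℝ) - 1) + ((3 : ℕ) : ℝ) = (j : ℝ) + 2 := by push_cast; ring
  rw [h4'] at h4
  have h5 := meas_le6 k (2 ^ i) ((j : ℝ) - 1) ((j : ℝ) + 2) (μ / 2) _ (by linarith) (by positivity) h4.le
  rw [hNX] at h5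
  have h4c := hCI (2 ^ i) Nat.one_le_two_pow
  rw [hNX] at h4c
  set V : ℝ := 768 * C * (X ^ (4 + ε') / μ ^ 6) with hV
  have h6 : volume F ≤ ENNReal.ofReal V := by
    refine h5.trans (ENNReal.ofReal_le_ofReal ?_)
    rw [hV]
    have h7 : (3 * X + 1) * (((3 : ℕ) : ℝ) * (cnt k (2 ^ i) : ℝ)) ≤ 12 * C * X ^ (4 + ε') := by
      have a1 : 3 * X + 1 ≤ 4 * X := by linarith
      have a2 : ((3 : ℕ) : ℝ) * (cnt k (2 ^ i) : ℝ) ≤ 3 * (C * X ^ (3 + ε')) := by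
        push_cast
        linarith
      have a3 : 0 ≤ ((3 : ℕ) : ℝ) * (cnt k (2 ^ i) : ℝ) := by positivity
      have a4 : X ^ (4 + ε') = X * X ^ (3 + ε') := by
        have : (4 + ε') = 1 + (3 + ε') := by ring
        rw [this, Real.rpow_add hX0, Real.rpow_one]
      calc (3 * X + 1) * (((3 : ℕ) : ℝ) * (cnt k (2 ^ i) : ℝ)) ≤ (4 * X) * (3 * (C * X ^ (3 + ε'))) :=
            mul_le_mul a1 a2 a3 (by positivity)
        _ = 12 * C * X ^ (4 + ε') := by rw [a4]; ring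
    have h8 : (μ / 2) ^ 6 = μ ^ 6 / 64 := by ring
    rw [h8]
    calc (3 * X + 1) * (((3 : ℕ) : ℝ) * (cnt k (2 ^ i) : ℝ)) / (μ ^ 6 / 64)
        ≤ 12 * C * X ^ (4 + ε') / (μ ^ 6 / 64) := by
          apply div_le_div_of_nonneg_right h7 (by positivity)
      _ = 768 * C * (X ^ (4 + ε') / μ ^ 6) := by field_simp; ring
  obtain ⟨S, hS1, hS2⟩ := hC (Bd k ε j i) F δ V (j : ℝ) ((j : ℝ) + 1) hδ0 (by positivity)
    (fun t ht => ht.1) key2 h6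
  refine ⟨S, hS1.trans ?_, hS2⟩
  have h9 : μ ^ 6 = X ^ (6 * (θ - ε')) := by
    rw [hμ, ← Real.rpow_natCast, ← Real.rpow_mul hX0.le]
    congr 1
    push_cast; ring
  rw [hV, h9, hδ, ← Real.rpow_sub hX0, mul_div_assoc, ← Real.rpow_sub hX0]
  calc 768 * C * X ^ (4 + ε' - 6 * (θ - ε') - -L) ≤ X ^ ε' * X ^ (4 + ε' - 6 * (θ - ε') - -L) :=
        mul_le_mul_of_nonneg_right g3 (by positivity)
    _ = X ^ (-2 + 6 / (k : ℝ) - 6 * ε + 8 * ε' + L) := by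
        rw [← Real.rpow_add hX0]
        congr 1
        rw [hθ]; ring

end Pool.Agent.W928.MW
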