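import Pool.Agent.W928.MW.Dim

/-! # Hausdorff dimension of the exceptional set, end of the proof -/

set_option autoImplicit false

open Finset MeasureTheory

namespace Pool.Agent.W928.MW

/-- the inequality of `H_k(1/k)` for one `t`, one `ε` and one constant -/
def Holds (k : ℕ) (ε C t : ℝ) : Prop :=
  ∀ N : ℕ, 1 ≤ N → ∀ ξ : ℝ, ∀ a q : ℕ, 1 ≤ a → a < q → q ≤ N → Nat.Coprime a q →
    |t - (a : ℝ) / (q : ℝ)| ≤ 1 / (q : ℝ) ^ 2 →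
    ‖sm k N t ξ‖ ≤ C * (N : ℝ) ^ (1 + ε) *
      (1 / (q : ℝ) + 1 / (N : ℝ) + (q : ℝ) / (N : ℝ) ^ k) ^ (1 / (k : ℝ))

theorem main_ge (k N q : ℕ) (ε : ℝ) (hk : 4 ≤ k) (hN : 1 ≤ N) :
    (N : ℝ) ^ (1 - 1 / (k : ℝ) + ε) ≤ (N : ℝ) ^ (1 + ε) *
      (1 / (q : ℝ) + 1 / (N : ℝ) + (q : ℝ) / (N : ℝ) ^ k) ^ (1 / (k : ℝ)) := by
  have hN' : (1 : ℝ) ≤ (N : ℝ) := by exact_mod_cast hN
  have hk0 : (0 : ℝ) < (k : ℝ) := by
    have : (4 : ℝ) ≤ (k : ℝ) := by exact_mod_cast hk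
    linarith
  have h1 : (N : ℝ) ^ (1 - 1 / (k : ℝ) + ε) = (N : ℝ) ^ (1 + ε) * (1 / (N : ℝ)) ^ (1 / (k : ℝ)) := by
    rw [Real.div_rpow (by norm_num) (by positivity), Real.one_rpow, mul_one_div, ← Real.rpow_sub (by positivity)]
    congr 1
    ring
  rw [h1]
  apply mul_le_mul_of_nonneg_left _ (by positivity)
  apply Real.rpow_le_rpow (by positivity) _ (by positivity)
  have h2 : 0 ≤ 1 / (q : ℝ) + (q : ℝ) / (N : ℝ) ^ k := by positivity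
  linarith

theorem big_eps (k : ℕ) (hk : 4 ≤ k) (ε : ℝ) (hε : 1 / (k : ℝ) ≤ ε) (t : ℝ) : Holds k ε 1 t := by
  intro N hN ξ a q _ _ _ _ _
  have hN' : (1 : ℝ) ≤ (N : ℝ) := by exact_mod_cast hN
  refine (sm_le k N t ξ).trans ?_
  rw [one_mul]
  refine le_trans ?_ (main_ge k N q ε hk hN)
  calc (N : ℝ) = (N : ℝ) ^ (1 : ℝ) := (Real.rpow_one _).symm
    _ ≤ (N : ℝ) ^ (1 - 1 / (k : ℝ) + ε) := Real.rpow_le_rpow_of_exponent_le hN' (by linarith)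

theorem bad_sub (k : ℕ) (hk : 4 ≤ k) (ε : ℝ) (hε : 0 < ε) (t : ℝ)
    (ht : ¬ ∃ C : ℝ, 0 < C ∧ Holds k ε C t) : ∀ i1 : ℕ, ∃ i : ℕ, i1 ≤ i ∧ t ∈ Bd k ε ⌊t⌋ i := by
  intro i1
  by_contra hcon
  push Not at hcon
  apply ht
  refine ⟨(2 : ℝ) ^ i1 + 1, by positivity, ?_⟩
  intro N hN ξ a q _ _ _ _ _
  have hN' : (1 : ℝ) ≤ (N : ℝ) := by exact_mod_cast hN
  have hk0 : (4 : ℝ) ≤ (k : ℝ) := by exact_mod_cast hk
  have hk1 : 1 / (k : ℝ) ≤ 1 / 4 := one_div_le_one_div_of_le (by norm_num) hk0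
  set R : ℝ := (N : ℝ) ^ (1 + ε) *
      (1 / (q : ℝ) + 1 / (N : ℝ) + (q : ℝ) / (N : ℝ) ^ k) ^ (1 / (k : ℝ)) with hR
  have h1 : (N : ℝ) ^ (1 - 1 / (k : ℝ) + ε) ≤ R := main_ge k N q ε hk hN
  have h2 : 1 ≤ (N : ℝ) ^ (1 - 1 / (k : ℝ) + ε) := Real.one_le_rpow hN' (by linarith)
  have h3 : ((2 : ℝ) ^ i1 + 1) * (N : ℝ) ^ (1 + ε) *
      (1 / (q : ℝ) + 1 / (N : ℝ) + (q : ℝ) / (N : ℝ) ^ k) ^ (1 / (k : ℝ)) = ((2 : ℝ) ^ i1 + 1) * R := by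
    rw [hR]; ring
  rw [h3]
  have hp : (0 : ℝ) < (2 : ℝ) ^ i1 := by positivity
  rcases le_total N (2 ^ i1) with hN2 | hN2
  · have h4 : (N : ℝ) ≤ (2 : ℝ) ^ i1 := by exact_mod_cast hN2
    refine (sm_le k N t ξ).trans ?_
    nlinarith
  · -- the scale of `N`
    obtain ⟨i, hi1, hi2⟩ : ∃ i : ℕ, N ≤ 2 ^ i ∧ 2 ^ i ≤ 2 * N := by
      refine ⟨Nat.log 2 N + 1, (Nat.lt_pow_succ_log_self (by norm_num) N).le, ?_⟩
      have := Nat.pow_log_le_self 2 (show N ≠ 0 by omega)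
      rw [pow_succ]
      omega
    have hii : i1 ≤ i := by
      have : 2 ^ i1 ≤ 2 ^ i := hN2.trans hi1
      exact (Nat.pow_le_pow_iff_right (by norm_num)).mp this
    have h5 := hcon i hii
    have h6 : ‖sm k N t ξ‖ ≤ (N : ℝ) ^ (1 - 1 / (k : ℝ) + ε) := by
      by_contra h7
      push Not at h7
      apply h5
      exact ⟨⟨Int.floor_le t, (Int.lt_floor_add_one t).le⟩, N, hi1, hi2, ξ, h7⟩
    nlinarith

theorem dim_main (hI : S_INT) (hM : S_MAX) (hC : S_COV) (hD : S_DIMG) (k : ℕ) (hk : 4 ≤ k) (ε : ℝ)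
    (hε : 0 < ε) : dimH {t : ℝ | ¬ ∃ C : ℝ, 0 < C ∧ Holds k ε C t} ≤
      ENNReal.ofReal (1 - ((k : ℝ) - 4 + 4 * ε * k) / ((k : ℝ) ^ 2 + 1)) := by
  have hk4 : (4 : ℝ) ≤ (k : ℝ) := by exact_mod_cast hk
  have hk0 : (0 : ℝ) < (k : ℝ) := by linarith
  rcases le_or_gt (1 / (k : ℝ)) ε with hbig | hsmall
  · have h1 : {t : ℝ | ¬ ∃ C : ℝ, 0 < C ∧ Holds k ε C t} = ∅ := by
      ext t
      constructor
      · intro ht
        exact absurd ⟨1, one_pos, big_eps k hk ε hbig t⟩ ht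
      · intro ht
        exact absurd ht (Set.notMem_empty t)
    rw [h1, dimH_empty]
    exact zero_le
  · set D : ℝ := 1 - ((k : ℝ) - 4 + 4 * ε * k) / ((k : ℝ) ^ 2 + 1) with hDdef
    have hεk : ε * k < 1 := by
      have := (lt_div_iff₀ hk0).mp hsmall
      exact this
    have hk2 : (0 : ℝ) < (k : ℝ) ^ 2 + 1 := by positivity
    have hD0 : 0 < D := by
      rw [hDdef, sub_pos, div_lt_one hk2]
      nlinarith
    set ε' : ℝ := ε ^ 2 / (5 * ((k : ℝ) + 1)) with hε'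
    have hε'0 : 0 < ε' := by positivity
    have hε1 : ε < 1 / 4 := lt_of_lt_of_le hsmall (one_div_le_one_div_of_le (by norm_num) hk4)
    have hε'1 : ε' ≤ ε / 4 := by
      rw [hε', div_le_div_iff₀ (by positivity) (by norm_num)]
      nlinarith
    have hsub : {t : ℝ | ¬ ∃ C : ℝ, 0 < C ∧ Holds k ε C t} ⊆
        ⋃ j : ℤ, {t : ℝ | ∀ i1 : ℕ, ∃ i : ℕ, i1 ≤ i ∧ t ∈ Bd k ε j i} := by
      intro t ht
      rw [Set.mem_iUnion]
      exact ⟨⌊t⌋, bad_sub k hk ε hε t ht⟩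
    refine (dimH_mono hsub).trans ?_
    rw [dimH_iUnion]
    apply iSup_le
    intro j
    set L : ℝ := (k : ℝ) + 1 / (k : ℝ) - ε + 2 * ε' with hL
    have hL0 : 0 < L := by
      have : 0 < 1 / (k : ℝ) := by positivity
      rw [hL]; linarith
    refine hD (-1 + 4 / (k : ℝ) - 4 * ε + 5 * ε' + L) L D (Bd k ε j) hL0 hD0 ?_
      (cover hI hM hC k hk ε ε' hε hsmall hε'0 hε'1 j)
    -- the exponents
    set r : ℝ := ((k : ℝ) - 4 + 4 * ε * k) / ((k : ℝ) ^ 2 + 1) with hr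
    have e1 : L * D = L - L * r := by rw [hDdef]; ring
    have e2 : ((k : ℝ) + 1 / (k : ℝ)) * r = 1 - 4 / (k : ℝ) + 4 * ε := by
      rw [hr]
      field_simp
    have e3 : L * r = (1 - 4 / (k : ℝ) + 4 * ε) - (ε - 2 * ε') * r := by
      rw [hL]
      have : ((k : ℝ) + 1 / (k : ℝ) - ε + 2 * ε') * r = ((k : ℝ) + 1 / (k : ℝ)) * r - (ε - 2 * ε') * r := by ring
      rw [this, e2]
    have e4 : 5 * ε' = ε ^ 2 / ((k : ℝ) + 1) := by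
      rw [hε']; field_simp
    have e5 : 2 * ε ^ 2 / ((k : ℝ) + 1) ≤ (ε - 2 * ε') * r := by
      have f1 : ε / 2 ≤ ε - 2 * ε' := by linarith
      have f2 : 4 * ε * k / ((k : ℝ) ^ 2 + 1) ≤ r := by
        rw [hr]
        apply div_le_div_of_nonneg_right _ hk2.le
        linarith
      have f3 : 4 * ε / ((k : ℝ) + 1) ≤ 4 * ε * k / ((k : ℝ) ^ 2 + 1) := by
        rw [div_le_div_iff₀ (by positivity) hk2]
        have : 0 ≤ 4 * ε * ((k : ℝ) - 1) := by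
          apply mul_nonneg (by positivity) (by linarith)
        nlinarith
      have f4 : 4 * ε / ((k : ℝ) + 1) ≤ r := f3.trans f2
      have f5 : 0 ≤ 4 * ε / ((k : ℝ) + 1) := by positivity
      calc 2 * ε ^ 2 / ((k : ℝ) + 1) = (ε / 2) * (4 * ε / ((k : ℝ) + 1)) := by ring
        _ ≤ (ε - 2 * ε') * r := mul_le_mul f1 f4 f5 (by linarith)
    have e6 : 0 < ε ^ 2 / ((k : ℝ) + 1) := by positivity
    have e7 : 2 * ε ^ 2 / ((k : ℝ) + 1) = 2 * (ε ^ 2 / ((k : ℝ) + 1)) := by ring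
    rw [e1, e3]
    linarith

end Pool.Agent.W928.MW
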