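import Pool.Agent.W928.MW.Stm

/-!
# Project MW (MP_3b0be2_nt): statements for the sixth moment, odd `k ≥ 3`
-/

set_option autoImplicit false

open Finset MeasureTheory

namespace Pool.Agent.W928.MW

/-- triples with sum `m` -/
def trs (N m : ℕ) : Finset (ℕ × ℕ × ℕ) :=
  ((Icc 1 N) ×ˢ (Icc 1 N) ×ˢ (Icc 1 N)).filter (fun z => z.1 + z.2.1 + z.2.2 = m)

/-- sum of three `k`-th powers -/
def pw (k : ℕ) (z : ℕ × ℕ × ℕ) : ℕ := z.1 ^ k + z.2.1 ^ k + z.2.2 ^ k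

noncomputable def p3 (k N m : ℕ) (t : ℝ) : ℂ :=
  ∑ z ∈ trs N m, e (t * (pw k z : ℝ))

noncomputable def Q3 (k N : ℕ) (t : ℝ) : ℝ := ∑ m ∈ range (3 * N + 1), ‖p3 k N m t‖ ^ 2

/-- number of solutions of the pair of equations -/
def cnt (k N : ℕ) : ℕ :=
  ∑ m ∈ range (3 * N + 1), ∑ z ∈ trs N m, ((trs N m).filter (fun w => pw k w = pw k z)).card

/-- supremum over the linear coefficient -/
def S_SUP6 : Prop := ∀ (k N : ℕ) (t ξ : ℝ), ‖sm k N t ξ‖ ^ 6 ≤ (3 * (N : ℝ) + 1) * Q3 k N t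

/-- the sixth moment over an interval of integer length -/
def S_INT6 : Prop := ∀ (k N l : ℕ) (u : ℝ), ∫ t in u..(u + (l : ℝ)), Q3 k N t = (l : ℝ) * (cnt k N : ℝ)

/-- number of representations, odd `k` -/
def S_REP6 : Prop := ∀ k : ℕ, Odd k → 3 ≤ k → ∀ ε : ℝ, 0 < ε → ∃ C : ℝ, 0 < C ∧ ∀ N m : ℕ, 1 ≤ N →
  ∀ z ∈ trs N m, ((((trs N m).filter (fun w => pw k w = pw k z)).card : ℕ) : ℝ) ≤ C * (N : ℝ) ^ ε

end Pool.Agent.W928.MW
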