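import Mathlib

/-!
# Project MW (MP_3b0be2_nt, Montgomery's conjecture on Weyl sums): statements
-/

set_option autoImplicit false

open Finset MeasureTheory

namespace Pool.Agent.W928.MW

/-- `e(x) = exp(2 pi i x)` -/
noncomputable def e (x : ℝ) : ℂ := Complex.exp (2 * (Real.pi : ℂ) * Complex.I * (x : ℂ))

/-- the Weyl sum -/
noncomputable def sm (k N : ℕ) (t ξ : ℝ) : ℂ :=
  ∑ n ∈ Icc 1 N, e (t * (n : ℝ) ^ k + ξ * (n : ℝ))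

/-- pairs with sum `m` -/
def prs (N m : ℕ) : Finset (ℕ × ℕ) := ((Icc 1 N) ×ˢ (Icc 1 N)).filter (fun z => z.1 + z.2 = m)

noncomputable def p (k N m : ℕ) (t : ℝ) : ℂ :=
  ∑ z ∈ prs N m, e (t * ((z.1 : ℝ) ^ k + (z.2 : ℝ) ^ k))

noncomputable def Q (k N : ℕ) (t : ℝ) : ℝ := ∑ m ∈ range (2 * N + 1), ‖p k N m t‖ ^ 2

/-- supremum over the linear coefficient -/
def S_SUP : Prop := ∀ (k N : ℕ) (t ξ : ℝ), ‖sm k N t ξ‖ ^ 4 ≤ (2 * (N : ℝ) + 1) * Q k N t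

/-- the Diophantine inequality behind the fourth moment -/
def S_DIO : Prop := ∀ (k x1 x2 y1 y2 : ℕ), 2 ≤ k → x1 + x2 = y1 + y2 →
  |(x1 : ℝ) - (y1 : ℝ)| * |(x1 : ℝ) - (y2 : ℝ)| * (max (max (x1 : ℝ) (x2 : ℝ)) (max (y1 : ℝ) (y2 : ℝ))) ^ (k - 2) ≤
    |(x1 : ℝ) ^ k + (x2 : ℝ) ^ k - (y1 : ℝ) ^ k - (y2 : ℝ) ^ k|

/-- a convergent triple sum -/
def S_NEAR : Prop := ∃ C : ℝ, 0 < C ∧ ∀ N : ℕ,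
  ∑ x ∈ Icc 1 N, ∑ y ∈ (Icc 1 N).filter (fun y => y ≠ x), ∑ z ∈ (Icc 1 N).filter (fun z => z ≠ x),
    1 / (|(x : ℝ) - (y : ℝ)| * |(x : ℝ) - (z : ℝ)| * (max (x : ℝ) (max (y : ℝ) (z : ℝ))) ^ 2) ≤ C

/-- local fourth moment -/
def S_INT : Prop := ∀ k : ℕ, 4 ≤ k → ∃ C : ℝ, 0 < C ∧ ∀ (N : ℕ) (u v : ℝ), u ≤ v →
  ∫ t in u..v, Q k N t ≤ 2 * (N : ℝ) ^ 2 * (v - u) + C

/-- incomplete sums -/
def S_MAX : Prop := ∀ (k N M : ℕ) (t K : ℝ), 1 ≤ N → M ≤ N → (∀ η : ℝ, ‖sm k N t η‖ ≤ K) →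
  ∀ ξ : ℝ, ‖sm k M t ξ‖ ≤ (4 + 4 * Real.log N) * K

/-- Hausdorff dimension of an upper limit of sets covered by few short intervals -/
def S_DIMG : Prop := ∀ (A L D : ℝ) (B : ℕ → Set ℝ), 0 < L → 0 < D → A < L * D →
  (∃ i0 : ℕ, ∀ i : ℕ, i0 ≤ i → ∃ S : Finset ℝ, (S.card : ℝ) ≤ ((2 : ℝ) ^ i) ^ A ∧
      B i ⊆ ⋃ x ∈ S, Set.Icc x (x + ((2 : ℝ) ^ i) ^ (-L))) →
  dimH {c : ℝ | ∀ i1 : ℕ, ∃ i : ℕ, i1 ≤ i ∧ c ∈ B i} ≤ ENNReal.ofReal D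

/-- from measure to covering number -/
def S_COV : Prop := ∀ (E F : Set ℝ) (δ V a b : ℝ), 0 < δ → 0 ≤ V → E ⊆ Set.Icc a b →
  (∀ t ∈ E, ∀ t' : ℝ, |t' - t| ≤ δ → t' ∈ F) → volume F ≤ ENNReal.ofReal V →
  ∃ S : Finset ℝ, (S.card : ℝ) ≤ V / δ ∧ E ⊆ ⋃ x ∈ S, Set.Icc x (x + δ)

end Pool.Agent.W928.MW
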