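import Pool.Agent.W928.MW.Six
import Pool.Agent.W928.MW.Sup

/-! # supremum over the linear coefficient, sixth power -/

set_option autoImplicit false

open Finset MeasureTheory

namespace Pool.Agent.W928.MW

theorem sm_cube (k N : ℕ) (t ξ : ℝ) :
    sm k N t ξ ^ 3 = ∑ m ∈ range (3 * N + 1), e (ξ * m) * p3 k N m t := by
  have h1 : sm k N t ξ ^ 3 = ∑ z ∈ (Icc 1 N) ×ˢ (Icc 1 N) ×ˢ (Icc 1 N),
      e (ξ * ((z.1 + z.2.1 + z.2.2 : ℕ) : ℝ)) * e (t * (pw k z : ℝ)) := by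
    have h0 : sm k N t ξ ^ 3 = sm k N t ξ * (sm k N t ξ * sm k N t ξ) := by ring
    rw [h0]
    unfold sm
    rw [Finset.sum_mul_sum, ← Finset.sum_product', Finset.sum_mul_sum, ← Finset.sum_product']
    apply Finset.sum_congr rfl
    intro z _
    rw [← e_add, ← e_add, ← e_add]
    congr 1
    unfold pw
    push_cast
    ring
  rw [h1, ← Finset.sum_fiberwise_of_maps_to (s := (Icc 1 N) ×ˢ (Icc 1 N) ×ˢ (Icc 1 N))
    (t := range (3 * N + 1)) (g := fun z : ℕ × ℕ × ℕ => z.1 + z.2.1 + z.2.2)]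
  · apply Finset.sum_congr rfl
    intro m _
    unfold p3 trs
    rw [Finset.mul_sum]
    apply Finset.sum_congr rfl
    intro z hz
    rw [Finset.mem_filter] at hz
    rw [hz.2]
  · intro z hz
    rw [Finset.mem_product, Finset.mem_product, Finset.mem_Icc, Finset.mem_Icc, Finset.mem_Icc] at hz
    rw [Finset.mem_range]
    omega

theorem sup6 : S_SUP6 := by
  intro k N t ξ
  have h1 : ‖sm k N t ξ‖ ^ 6 = ‖sm k N t ξ ^ 3‖ ^ 2 := by
    rw [norm_pow]; ring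
  rw [h1, sm_cube]
  have h2 : ‖∑ m ∈ range (3 * N + 1), e (ξ * m) * p3 k N m t‖ ≤ ∑ m ∈ range (3 * N + 1), ‖p3 k N m t‖ := by
    refine (norm_sum_le _ _).trans (le_of_eq ?_)
    apply Finset.sum_congr rfl
    intro m _
    rw [norm_mul, e_norm, one_mul]
  have h3 := sq_sum_le_card_mul_sum_sq (s := range (3 * N + 1)) (f := fun m => ‖p3 k N m t‖)
  rw [Finset.card_range] at h3
  have h4 : (((3 * N + 1 : ℕ) : ℝ)) = 3 * (N : ℝ) + 1 := by push_cast; ring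
  rw [h4] at h3
  refine le_trans ?_ h3
  exact pow_le_pow_left₀ (norm_nonneg _) h2 2

/-- total count from the pointwise bound -/
theorem cnt_le (hR : S_REP6) (k : ℕ) (hodd : Odd k) (hk : 3 ≤ k) (ε : ℝ) (hε : 0 < ε) :
    ∃ C : ℝ, 0 < C ∧ ∀ N : ℕ, 1 ≤ N → (cnt k N : ℝ) ≤ C * (N : ℝ) ^ (3 + ε) := by
  obtain ⟨C, hC, h⟩ := hR k hodd hk ε hε
  refine ⟨C, hC, fun N hN => ?_⟩
  have hN0 : (0 : ℝ) < (N : ℝ) := by exact_mod_cast hN
  unfold cnt
  push_cast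
  have h1 : ∑ m ∈ range (3 * N + 1), ∑ z ∈ trs N m,
      ((((trs N m).filter (fun w => pw k w = pw k z)).card : ℕ) : ℝ) ≤
      ∑ m ∈ range (3 * N + 1), ∑ z ∈ trs N m, C * (N : ℝ) ^ ε := by
    apply Finset.sum_le_sum
    intro m _
    apply Finset.sum_le_sum
    intro z hz
    exact h N m hN z hz
  refine h1.trans (le_of_eq ?_)
  have h2 : ∑ m ∈ range (3 * N + 1), ∑ z ∈ trs N m, C * (N : ℝ) ^ ε =
      ∑ z ∈ (Icc 1 N) ×ˢ (Icc 1 N) ×ˢ (Icc 1 N), C * (N : ℝ) ^ ε := by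
    rw [← Finset.sum_fiberwise_of_maps_to (s := (Icc 1 N) ×ˢ (Icc 1 N) ×ˢ (Icc 1 N))
      (t := range (3 * N + 1)) (g := fun z : ℕ × ℕ × ℕ => z.1 + z.2.1 + z.2.2)]
    · rfl
    · intro z hz
      rw [Finset.mem_product, Finset.mem_product, Finset.mem_Icc, Finset.mem_Icc, Finset.mem_Icc] at hz
      rw [Finset.mem_range]
      omega
  rw [h2, Finset.sum_const, Finset.card_product, Finset.card_product, Nat.card_Icc, nsmul_eq_mul,
    Real.rpow_add hN0]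
  have h6 : (((N + 1 - 1) * ((N + 1 - 1) * (N + 1 - 1)) : ℕ) : ℝ) = (N : ℝ) ^ (3 : ℝ) := by
    rw [Nat.add_sub_cancel]
    have : (N : ℝ) ^ (3 : ℝ) = (N : ℝ) ^ 3 := by
      rw [← Real.rpow_natCast]; norm_num
    rw [this]
    push_cast; ring
  rw [h6]
  ring

end Pool.Agent.W928.MW
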