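import Pool.Agent.W928.MW.Arc

/-! # fourth moment over the translates `t + b/q`, `q` prime -/

set_option autoImplicit false

open Finset MeasureTheory

namespace Pool.Agent.W928.MW

/-- the integer difference -/
def dl (k : ℕ) (z w : ℕ × ℕ) : ℤ := ((z.1 : ℤ) ^ k + (z.2 : ℤ) ^ k) - ((w.1 : ℤ) ^ k + (w.2 : ℤ) ^ k)

theorem e_int (n : ℤ) : e (n : ℝ) = 1 := by
  unfold e
  rw [Complex.exp_eq_one_iff]
  refine ⟨n, ?_⟩
  push_cast
  ring

theorem e_eq_one {x : ℝ} (h : e x = 1) : ∃ n : ℤ, x = n := by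
  unfold e at h
  rw [Complex.exp_eq_one_iff] at h
  obtain ⟨n, hn⟩ := h
  refine ⟨n, ?_⟩
  have h1 : (2 * (Real.pi : ℂ) * Complex.I) ≠ 0 := by
    simp [Real.pi_ne_zero, Complex.I_ne_zero]
  have h2 : (2 * (Real.pi : ℂ) * Complex.I) * (x : ℂ) = (2 * (Real.pi : ℂ) * Complex.I) * (n : ℂ) := by
    rw [hn]; ring
  have h3 := mul_left_cancel₀ h1 h2
  exact_mod_cast h3

theorem e_nsmul (x : ℝ) (b : ℕ) : e ((b : ℝ) * x) = e x ^ b := by
  unfold e
  rw [← Complex.exp_nat_mul]
  congr 1
  push_cast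
  ring

theorem e_re (x : ℝ) : (e x).re = Real.cos (2 * Real.pi * x) := by
  unfold e
  have h : 2 * (Real.pi : ℂ) * Complex.I * (x : ℂ) = ((2 * Real.pi * x : ℝ) : ℂ) * Complex.I := by
    push_cast; ring
  rw [h, Complex.exp_ofReal_mul_I_re]

/-- orthogonality -/
theorem orth (q : ℕ) (hq : 0 < q) (t : ℝ) (D : ℤ) :
    ∑ b ∈ range q, Real.cos (2 * Real.pi * (t + (b : ℝ) / (q : ℝ)) * (D : ℝ)) ≤
      if (q : ℤ) ∣ D then (q : ℝ) else 0 := by
  have hq0 : (q : ℝ) ≠ 0 := by exact_mod_cast hq.ne'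
  split_ifs with hd
  · calc ∑ b ∈ range q, Real.cos (2 * Real.pi * (t + (b : ℝ) / (q : ℝ)) * (D : ℝ)) ≤ ∑ b ∈ range q, (1 : ℝ) :=
        Finset.sum_le_sum (fun b _ => Real.cos_le_one _)
      _ = q := by rw [Finset.sum_const, Finset.card_range, nsmul_eq_mul, mul_one]
  · apply le_of_eq
    have h1 : ∀ b ∈ range q, Real.cos (2 * Real.pi * (t + (b : ℝ) / (q : ℝ)) * (D : ℝ)) =
        (e (t * D) * e ((D : ℝ) / (q : ℝ)) ^ b).re := by
      intro b _
      rw [← e_nsmul, ← e_add, e_re]
      congr 1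
      field_simp
    rw [Finset.sum_congr rfl h1, ← Complex.re_sum, ← Finset.mul_sum]
    have h2 : e ((D : ℝ) / (q : ℝ)) ≠ 1 := by
      intro h
      obtain ⟨n, hn⟩ := e_eq_one h
      apply hd
      refine ⟨n, ?_⟩
      rw [div_eq_iff hq0] at hn
      have : (D : ℝ) = (((q : ℤ) * n : ℤ) : ℝ) := by
        rw [hn]; push_cast; ring
      exact_mod_cast this
    have h3 : ∑ b ∈ range q, e ((D : ℝ) / (q : ℝ)) ^ b = 0 := by
      rw [geom_sum_eq h2]
      have h4 : e ((D : ℝ) / (q : ℝ)) ^ q = 1 := by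
        rw [← e_nsmul]
        have : (q : ℝ) * ((D : ℝ) / (q : ℝ)) = (D : ℝ) := by field_simp
        rw [this]
        exact e_int D
      rw [h4]
      simp
    rw [h3, mul_zero, Complex.zero_re]

/-- number of `x` in a residue class -/
theorem card_class (N q : ℕ) (hq : 0 < q) [NeZero q] (r : ZMod q) :
    ((Icc 1 N).filter (fun x : ℕ => (x : ZMod q) = r)).card ≤ N / q + 1 := by
  have h1 : ((Icc 1 N).filter (fun x : ℕ => (x : ZMod q) = r)).card ≤ (range (N / q + 1)).card := by
    apply Finset.card_le_card_of_injOn (fun x => x / q)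
    · intro x hx
      rw [Finset.mem_coe, Finset.mem_filter, Finset.mem_Icc] at hx
      rw [Finset.mem_coe, Finset.mem_range]
      have := Nat.div_le_div_right (c := q) hx.1.2
      exact Nat.lt_succ_of_le this
    · intro x hx y hy hxy
      rw [Finset.mem_coe, Finset.mem_filter] at hx hy
      have h2 : (x : ZMod q) = (y : ZMod q) := by rw [hx.2, hy.2]
      have h3 : x ≡ y [MOD q] := (ZMod.natCast_eq_natCast_iff x y q).mp h2
      have h4 : x % q = y % q := h3
      have h5 := Nat.div_add_mod x q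
      have h6 := Nat.div_add_mod y q
      simp only at hxy
      rw [← h5, ← h6, hxy, h4]
  rwa [Finset.card_range] at h1

open Polynomial in
/-- number of solutions of the congruence in one variable -/
theorem card_poly (k N q : ℕ) (hk : 2 ≤ k) [Fact q.Prime] (hqk : k < q) (s : ℕ) (c : ZMod q)
    (hs : (s : ZMod q) ≠ 0) :
    ((Icc 1 N).filter (fun x : ℕ => (x : ZMod q) ^ k + ((s : ZMod q) - (x : ZMod q)) ^ k = c)).card ≤
      k * (N / q + 1) := by
  classical
  have hqp : q.Prime := Fact.out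
  have : NeZero q := ⟨hqp.ne_zero⟩
  set P : (ZMod q)[X] := X ^ k + C ((-1) ^ k) * (X + C (-(s : ZMod q))) ^ k - C c with hP
  have hdeg : P.natDegree ≤ k := by
    rw [hP]
    refine (natDegree_sub_le _ _).trans (max_le ?_ ?_)
    · refine (natDegree_add_le _ _).trans (max_le ?_ ?_)
      · exact natDegree_X_pow_le k
      · refine (natDegree_C_mul_le _ _).trans ?_
        refine (natDegree_pow_le).trans ?_
        have : (X + C (-(s : ZMod q))).natDegree ≤ 1 := by
          rw [natDegree_X_add_C]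
        calc k * (X + C (-(s : ZMod q))).natDegree ≤ k * 1 := Nat.mul_le_mul_left k this
          _ = k := mul_one k
    · rw [natDegree_C]; omega
  have hne : P ≠ 0 := by
    intro h0
    rcases Nat.even_or_odd k with hev | hod
    · have h1 : P.coeff k = 0 := by rw [h0, coeff_zero]
      rw [hP, coeff_sub, coeff_add, coeff_X_pow, if_pos rfl, coeff_C_mul, coeff_X_add_C_pow,
        coeff_C, if_neg (by omega), hev.neg_one_pow, Nat.sub_self, pow_zero, Nat.choose_self] at h1
      have h2 : (2 : ZMod q) = 0 := by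
        have : (1 : ZMod q) + 1 * (1 * ((1 : ℕ) : ZMod q)) - 0 = 2 := by push_cast; ring
        rw [← this]; exact h1
      have h3 : ((2 : ℕ) : ZMod q) = 0 := by exact_mod_cast h2
      rw [ZMod.natCast_eq_zero_iff] at h3
      have := Nat.le_of_dvd (by norm_num) h3
      omega
    · have h1 : P.coeff (k - 1) = 0 := by rw [h0, coeff_zero]
      rw [hP, coeff_sub, coeff_add, coeff_X_pow, if_neg (by omega), coeff_C_mul, coeff_X_add_C_pow,
        coeff_C, if_neg (by omega), hod.neg_one_pow] at h1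
      have h2 : k - (k - 1) = 1 := by omega
      have h3 : k.choose (k - 1) = k := by
        rw [Nat.choose_symm_of_eq_add (show k = (k - 1) + 1 by omega), Nat.choose_one_right]
      rw [h2, h3, pow_one] at h1
      have h4 : (s : ZMod q) * (k : ZMod q) = 0 := by
        have : (0 : ZMod q) + -1 * (-(s : ZMod q) * (k : ZMod q)) - 0 = (s : ZMod q) * (k : ZMod q) := by ring
        rw [← this]; exact h1
      rcases mul_eq_zero.mp h4 with h5 | h5
      · exact hs h5
      · rw [ZMod.natCast_eq_zero_iff] at h5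
        have := Nat.le_of_dvd (by omega) h5
        omega
  have hsub : (Icc 1 N).filter (fun x : ℕ => (x : ZMod q) ^ k + ((s : ZMod q) - (x : ZMod q)) ^ k = c) ⊆
      P.roots.toFinset.biUnion (fun r => (Icc 1 N).filter (fun x : ℕ => (x : ZMod q) = r)) := by
    intro x hx
    rw [Finset.mem_filter] at hx
    rw [Finset.mem_biUnion]
    refine ⟨(x : ZMod q), ?_, ?_⟩
    · rw [Multiset.mem_toFinset, mem_roots hne, IsRoot.def, hP]
      simp only [eval_sub, eval_add, eval_pow, eval_X, eval_mul, eval_C]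
      have h1 : (-1 : ZMod q) ^ k * ((x : ZMod q) + -(s : ZMod q)) ^ k = ((s : ZMod q) - (x : ZMod q)) ^ k := by
        rw [← mul_pow]
        congr 1
        ring
      rw [h1, hx.2, sub_self]
    · rw [Finset.mem_filter]
      exact ⟨hx.1, rfl⟩
  refine (Finset.card_le_card hsub).trans (Finset.card_biUnion_le.trans ?_)
  calc ∑ r ∈ P.roots.toFinset, ((Icc 1 N).filter (fun x : ℕ => (x : ZMod q) = r)).card
      ≤ ∑ r ∈ P.roots.toFinset, (N / q + 1) := Finset.sum_le_sum (fun r _ => card_class N q hqp.pos r)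
    _ = P.roots.toFinset.card * (N / q + 1) := by rw [Finset.sum_const, smul_eq_mul]
    _ ≤ k * (N / q + 1) := by
        apply Nat.mul_le_mul_right
        exact (Multiset.toFinset_card_le _).trans ((card_roots' P).trans hdeg)

end Pool.Agent.W928.MW
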