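import Pool.Agent.W928.MW.Trans

/-! # fourth moment over the translates `t + b/q`, `q` prime: counting -/

set_option autoImplicit false

open Finset MeasureTheory

namespace Pool.Agent.W928.MW

/-- number of `x` completing `(y, y')` to a solution of the congruence -/
theorem card_x (k N q : ℕ) (hk : 2 ≤ k) [Fact q.Prime] (hqk : k < q) (hqN : q ≤ N) (y y' : ℕ)
    (hs : ¬ q ∣ y + y') :
    (((Icc 1 N).filter (fun x : ℕ => (q : ℤ) ∣ ((x : ℤ) ^ k + ((y : ℤ) + (y' : ℤ) - (x : ℤ)) ^ k) -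
      ((y : ℤ) ^ k + (y' : ℤ) ^ k))).card : ℝ) ≤ 2 * k * (N : ℝ) / q := by
  have hqp : q.Prime := Fact.out
  have h1 : (Icc 1 N).filter (fun x : ℕ => (q : ℤ) ∣ ((x : ℤ) ^ k + ((y : ℤ) + (y' : ℤ) - (x : ℤ)) ^ k) -
      ((y : ℤ) ^ k + (y' : ℤ) ^ k)) ⊆
      (Icc 1 N).filter (fun x : ℕ => (x : ZMod q) ^ k + (((y + y' : ℕ) : ZMod q) - (x : ZMod q)) ^ k =
        (y : ZMod q) ^ k + (y' : ZMod q) ^ k) := by
    intro x hx
    rw [Finset.mem_filter] at hx ⊢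
    refine ⟨hx.1, ?_⟩
    have h2 := (ZMod.intCast_zmod_eq_zero_iff_dvd _ q).mpr hx.2
    push_cast at h2 ⊢
    exact sub_eq_zero.mp h2
  have h3 := (Finset.card_le_card h1).trans (card_poly k N q hk hqk (y + y')
    ((y : ZMod q) ^ k + (y' : ZMod q) ^ k) (by
      intro h
      apply hs
      exact (ZMod.natCast_eq_zero_iff _ q).mp h))
  have hq0 : (0 : ℝ) < (q : ℝ) := by exact_mod_cast hqp.pos
  have h4 : ((k * (N / q + 1) : ℕ) : ℝ) ≤ 2 * k * (N : ℝ) / q := by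
    push_cast
    have h5 : ((N / q : ℕ) : ℝ) ≤ (N : ℝ) / q := Nat.cast_div_le
    have h6 : (1 : ℝ) ≤ (N : ℝ) / q := by
      rw [le_div_iff₀ hq0, one_mul]
      exact_mod_cast hqN
    have h7 : (0 : ℝ) ≤ (k : ℝ) := Nat.cast_nonneg k
    calc (k : ℝ) * (((N / q : ℕ) : ℝ) + 1) ≤ (k : ℝ) * ((N : ℝ) / q + (N : ℝ) / q) := by gcongr
      _ = 2 * k * (N : ℝ) / q := by ring
  refine le_trans ?_ h4
  exact_mod_cast h3

theorem card_pairs (N q : ℕ) (hq : q.Prime) (hqN : q ≤ N) :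
    (((Icc 1 N ×ˢ Icc 1 N).filter (fun w : ℕ × ℕ => q ∣ w.1 + w.2)).card : ℝ) ≤ 2 * (N : ℝ) ^ 2 / q := by
  classical
  have : NeZero q := ⟨hq.ne_zero⟩
  have hq0 : (0 : ℝ) < (q : ℝ) := by exact_mod_cast hq.pos
  have h1 : (Icc 1 N ×ˢ Icc 1 N).filter (fun w : ℕ × ℕ => q ∣ w.1 + w.2) ⊆
      (Icc 1 N).biUnion (fun y => ((Icc 1 N).filter (fun x : ℕ => (x : ZMod q) = -(y : ZMod q))).image
        (fun x => (y, x))) := by
    rintro ⟨y, x⟩ hw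
    rw [Finset.mem_filter, Finset.mem_product] at hw
    rw [Finset.mem_biUnion]
    refine ⟨y, hw.1.1, ?_⟩
    rw [Finset.mem_image]
    refine ⟨x, ?_, rfl⟩
    rw [Finset.mem_filter]
    refine ⟨hw.1.2, ?_⟩
    have h2 := (ZMod.natCast_eq_zero_iff (y + x) q).mpr hw.2
    push_cast at h2
    exact eq_neg_of_add_eq_zero_right h2
  have h3 : ((Icc 1 N ×ˢ Icc 1 N).filter (fun w : ℕ × ℕ => q ∣ w.1 + w.2)).card ≤ N * (N / q + 1) := by
    refine (Finset.card_le_card h1).trans (Finset.card_biUnion_le.trans ?_)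
    calc ∑ y ∈ Icc 1 N, (((Icc 1 N).filter (fun x : ℕ => (x : ZMod q) = -(y : ZMod q))).image
        (fun x => (y, x))).card ≤ ∑ y ∈ Icc 1 N, (N / q + 1) :=
          Finset.sum_le_sum (fun y _ => Finset.card_image_le.trans (card_class N q hq.pos _))
      _ = N * (N / q + 1) := by
          rw [Finset.sum_const, Nat.card_Icc, Nat.add_sub_cancel, smul_eq_mul]
  have h4 : ((N * (N / q + 1) : ℕ) : ℝ) ≤ 2 * (N : ℝ) ^ 2 / q := by
    push_cast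
    have h5 : ((N / q : ℕ) : ℝ) ≤ (N : ℝ) / q := Nat.cast_div_le
    have h6 : (1 : ℝ) ≤ (N : ℝ) / q := by
      rw [le_div_iff₀ hq0, one_mul]
      exact_mod_cast hqN
    have h7 : (0 : ℝ) ≤ (N : ℝ) := Nat.cast_nonneg N
    calc (N : ℝ) * (((N / q : ℕ) : ℝ) + 1) ≤ (N : ℝ) * ((N : ℝ) / q + (N : ℝ) / q) := by gcongr
      _ = 2 * (N : ℝ) ^ 2 / q := by ring
  refine le_trans ?_ h4
  exact_mod_cast h3

/-- the number of solutions of the congruence in the box -/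
theorem card_quads (k N q : ℕ) (hk : 2 ≤ k) (hq : q.Prime) (hqN : q ≤ N) :
    ∑ w ∈ Icc 1 N ×ˢ Icc 1 N, (((Icc 1 N).filter (fun x : ℕ => (q : ℤ) ∣
      ((x : ℤ) ^ k + ((w.1 : ℤ) + (w.2 : ℤ) - (x : ℤ)) ^ k) - ((w.1 : ℤ) ^ k + (w.2 : ℤ) ^ k))).card : ℝ) ≤
      (2 * k + 2) * (N : ℝ) ^ 3 / q := by
  classical
  have : Fact q.Prime := ⟨hq⟩
  have hq0 : (0 : ℝ) < (q : ℝ) := by exact_mod_cast hq.pos
  have hN0 : (0 : ℝ) ≤ (N : ℝ) := Nat.cast_nonneg N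
  have hcN : ∀ w : ℕ × ℕ, (((Icc 1 N).filter (fun x : ℕ => (q : ℤ) ∣
      ((x : ℤ) ^ k + ((w.1 : ℤ) + (w.2 : ℤ) - (x : ℤ)) ^ k) - ((w.1 : ℤ) ^ k + (w.2 : ℤ) ^ k))).card : ℝ) ≤ N := by
    intro w
    have := Finset.card_filter_le (Icc 1 N) (fun x : ℕ => (q : ℤ) ∣
      ((x : ℤ) ^ k + ((w.1 : ℤ) + (w.2 : ℤ) - (x : ℤ)) ^ k) - ((w.1 : ℤ) ^ k + (w.2 : ℤ) ^ k))
    rw [Nat.card_Icc, Nat.add_sub_cancel] at this
    exact_mod_cast this
  have hcard : ((Icc 1 N ×ˢ Icc 1 N).card : ℝ) = (N : ℝ) ^ 2 := by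
    rw [Finset.card_product, Nat.card_Icc, Nat.add_sub_cancel]; push_cast; ring
  rcases le_or_gt q k with hqk | hqk
  · have h1 : ∑ w ∈ Icc 1 N ×ˢ Icc 1 N, (((Icc 1 N).filter (fun x : ℕ => (q : ℤ) ∣
      ((x : ℤ) ^ k + ((w.1 : ℤ) + (w.2 : ℤ) - (x : ℤ)) ^ k) - ((w.1 : ℤ) ^ k + (w.2 : ℤ) ^ k))).card : ℝ) ≤
      ∑ w ∈ Icc 1 N ×ˢ Icc 1 N, (N : ℝ) := Finset.sum_le_sum (fun w _ => hcN w)
    refine h1.trans ?_
    rw [Finset.sum_const, nsmul_eq_mul, hcard, le_div_iff₀ hq0]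
    have h2 : (q : ℝ) ≤ (k : ℝ) := by exact_mod_cast hqk
    have h3 : (0 : ℝ) ≤ (N : ℝ) ^ 3 := by positivity
    have h4 : (0 : ℝ) ≤ (k : ℝ) := Nat.cast_nonneg k
    calc (N : ℝ) ^ 2 * N * q = (N : ℝ) ^ 3 * q := by ring
      _ ≤ (N : ℝ) ^ 3 * (2 * k + 2) := mul_le_mul_of_nonneg_left (by linarith) h3
      _ = (2 * k + 2) * (N : ℝ) ^ 3 := by ring
  · rw [← Finset.sum_filter_add_sum_filter_not (Icc 1 N ×ˢ Icc 1 N) (fun w : ℕ × ℕ => q ∣ w.1 + w.2)]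
    have h1 : ∑ w ∈ (Icc 1 N ×ˢ Icc 1 N).filter (fun w : ℕ × ℕ => q ∣ w.1 + w.2),
        (((Icc 1 N).filter (fun x : ℕ => (q : ℤ) ∣
      ((x : ℤ) ^ k + ((w.1 : ℤ) + (w.2 : ℤ) - (x : ℤ)) ^ k) - ((w.1 : ℤ) ^ k + (w.2 : ℤ) ^ k))).card : ℝ) ≤
        2 * (N : ℝ) ^ 2 / q * N := by
      refine (Finset.sum_le_sum (fun w _ => hcN w)).trans ?_
      rw [Finset.sum_const, nsmul_eq_mul]
      exact mul_le_mul_of_nonneg_right (card_pairs N q hq hqN) hN0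
    have h2 : ∑ w ∈ (Icc 1 N ×ˢ Icc 1 N).filter (fun w : ℕ × ℕ => ¬ q ∣ w.1 + w.2),
        (((Icc 1 N).filter (fun x : ℕ => (q : ℤ) ∣
      ((x : ℤ) ^ k + ((w.1 : ℤ) + (w.2 : ℤ) - (x : ℤ)) ^ k) - ((w.1 : ℤ) ^ k + (w.2 : ℤ) ^ k))).card : ℝ) ≤
        (N : ℝ) ^ 2 * (2 * k * (N : ℝ) / q) := by
      have h3 : ∑ w ∈ (Icc 1 N ×ˢ Icc 1 N).filter (fun w : ℕ × ℕ => ¬ q ∣ w.1 + w.2),
        (((Icc 1 N).filter (fun x : ℕ => (q : ℤ) ∣
      ((x : ℤ) ^ k + ((w.1 : ℤ) + (w.2 : ℤ) - (x : ℤ)) ^ k) - ((w.1 : ℤ) ^ k + (w.2 : ℤ) ^ k))).card : ℝ) ≤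
        ∑ w ∈ (Icc 1 N ×ˢ Icc 1 N).filter (fun w : ℕ × ℕ => ¬ q ∣ w.1 + w.2), (2 * k * (N : ℝ) / q) := by
        apply Finset.sum_le_sum
        intro w hw
        rw [Finset.mem_filter] at hw
        exact card_x k N q hk hqk hqN w.1 w.2 hw.2
      refine h3.trans ?_
      rw [Finset.sum_const, nsmul_eq_mul]
      apply mul_le_mul_of_nonneg_right _ (by positivity)
      rw [← hcard]
      exact_mod_cast Finset.card_filter_le _ _
    refine (add_le_add h1 h2).trans (le_of_eq ?_)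
    field_simp
    ring

/-- the fourth moment over translates -/
theorem moment (k N q : ℕ) (hk : 2 ≤ k) (hq : q.Prime) (hqN : q ≤ N) (t : ℝ) :
    ∑ b ∈ range q, Q k N (t + (b : ℝ) / (q : ℝ)) ≤ (2 * k + 2) * (N : ℝ) ^ 3 := by
  classical
  have hq0 : (0 : ℝ) < (q : ℝ) := by exact_mod_cast hq.pos
  have h1 : ∑ b ∈ range q, Q k N (t + (b : ℝ) / (q : ℝ)) = ∑ m ∈ range (2 * N + 1), ∑ z ∈ prs N m,
      ∑ w ∈ prs N m, ∑ b ∈ range q, Real.cos (2 * Real.pi * (t + (b : ℝ) / (q : ℝ)) * ((dl k z w : ℤ) : ℝ)) := by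
    unfold Q
    rw [Finset.sum_comm]
    apply Finset.sum_congr rfl
    intro m _
    rw [Finset.sum_congr (s₁ := range q) rfl (fun b _ => p_sq k N m (t + (b : ℝ) / (q : ℝ))), Finset.sum_comm]
    apply Finset.sum_congr rfl
    intro z _
    rw [Finset.sum_comm]
    apply Finset.sum_congr rfl
    intro w _
    apply Finset.sum_congr rfl
    intro b _
    congr 2
    unfold dl
    push_cast
    ring
  rw [h1]
  have h2 : ∑ m ∈ range (2 * N + 1), ∑ z ∈ prs N m,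
      ∑ w ∈ prs N m, ∑ b ∈ range q, Real.cos (2 * Real.pi * (t + (b : ℝ) / (q : ℝ)) * ((dl k z w : ℤ) : ℝ)) ≤
      ∑ m ∈ range (2 * N + 1), ∑ z ∈ prs N m, ∑ w ∈ prs N m, (if (q : ℤ) ∣ dl k z w then (q : ℝ) else 0) :=
    Finset.sum_le_sum (fun m _ => Finset.sum_le_sum (fun z _ => Finset.sum_le_sum (fun w _ =>
      orth q hq.pos t (dl k z w))))
  refine h2.trans ?_
  have h3 : ∑ m ∈ range (2 * N + 1), ∑ z ∈ prs N m, ∑ w ∈ prs N m,
      (if (q : ℤ) ∣ dl k z w then (q : ℝ) else 0) =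
      ∑ w ∈ (Icc 1 N) ×ˢ (Icc 1 N), ∑ z ∈ prs N (w.1 + w.2), (if (q : ℤ) ∣ dl k z w then (q : ℝ) else 0) := by
    rw [← Finset.sum_fiberwise_of_maps_to (s := (Icc 1 N) ×ˢ (Icc 1 N)) (t := range (2 * N + 1))
      (g := fun z : ℕ × ℕ => z.1 + z.2)]
    · apply Finset.sum_congr rfl
      intro m _
      rw [Finset.sum_comm]
      apply Finset.sum_congr rfl
      intro w hw
      unfold prs at hw
      rw [Finset.mem_filter] at hw
      rw [hw.2]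
    · intro z hz
      rw [Finset.mem_product, Finset.mem_Icc, Finset.mem_Icc] at hz
      rw [Finset.mem_range]
      omega
  rw [h3]
  have h4 : ∀ w ∈ (Icc 1 N) ×ˢ (Icc 1 N),
      ∑ z ∈ prs N (w.1 + w.2), (if (q : ℤ) ∣ dl k z w then (q : ℝ) else 0) ≤
      (q : ℝ) * (((Icc 1 N).filter (fun x : ℕ => (q : ℤ) ∣
      ((x : ℤ) ^ k + ((w.1 : ℤ) + (w.2 : ℤ) - (x : ℤ)) ^ k) - ((w.1 : ℤ) ^ k + (w.2 : ℤ) ^ k))).card : ℝ) := by
    intro w _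
    rw [← Finset.sum_filter, Finset.sum_const, nsmul_eq_mul, mul_comm]
    apply mul_le_mul_of_nonneg_left _ hq0.le
    have h5 : ((prs N (w.1 + w.2)).filter (fun z => (q : ℤ) ∣ dl k z w)).card ≤
        ((Icc 1 N).filter (fun x : ℕ => (q : ℤ) ∣
      ((x : ℤ) ^ k + ((w.1 : ℤ) + (w.2 : ℤ) - (x : ℤ)) ^ k) - ((w.1 : ℤ) ^ k + (w.2 : ℤ) ^ k))).card := by
      apply Finset.card_le_card_of_injOn (fun z => z.1)
      · intro z hz
        rw [Finset.mem_coe, Finset.mem_filter] at hz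
        unfold prs at hz
        rw [Finset.mem_filter, Finset.mem_product] at hz
        rw [Finset.mem_coe, Finset.mem_filter]
        refine ⟨hz.1.1.1, ?_⟩
        have h6 := hz.2
        unfold dl at h6
        have h7 : (z.2 : ℤ) = (w.1 : ℤ) + (w.2 : ℤ) - (z.1 : ℤ) := by
          have := hz.1.2
          have h8 : ((z.1 + z.2 : ℕ) : ℤ) = ((w.1 + w.2 : ℕ) : ℤ) := by rw [this]
          push_cast at h8
          linarith
        rw [h7] at h6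
        exact h6
      · intro z hz z' hz' hzz
        rw [Finset.mem_coe, Finset.mem_filter] at hz hz'
        unfold prs at hz hz'
        rw [Finset.mem_filter] at hz hz'
        have a1 := hz.1.2
        have a2 := hz'.1.2
        have a3 : z.1 = z'.1 := hzz
        ext
        · exact a3
        · omega
    exact_mod_cast h5
  refine (Finset.sum_le_sum h4).trans ?_
  rw [← Finset.mul_sum]
  calc (q : ℝ) * _ ≤ (q : ℝ) * ((2 * k + 2) * (N : ℝ) ^ 3 / q) :=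
        mul_le_mul_of_nonneg_left (card_quads k N q hk hq hqN) hq0.le
    _ = (2 * k + 2) * (N : ℝ) ^ 3 := by field_simp

/-- few bad translates -/
theorem translates (k : ℕ) (hk : 4 ≤ k) (ε : ℝ) (N : ℕ) (hN : 1 ≤ N) (q : ℕ)
    (hq : q.Prime) (hqN : q ≤ N) (t : ℝ) :
    (({b : ℕ | b < q ∧ ∃ ξ : ℝ, (N : ℝ) ^ (1 + ε) *
        (1 / (q : ℝ) + 1 / (N : ℝ) + (q : ℝ) / (N : ℝ) ^ k) ^ (1 / (k : ℝ)) <
          ‖sm k N (t + (b : ℝ) / (q : ℝ)) ξ‖}.ncard : ℕ) : ℝ) ≤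
      (6 * k + 6) * (q : ℝ) ^ (4 / (k : ℝ)) / (N : ℝ) ^ (4 * ε) := by
  classical
  have hq1 : (1 : ℝ) ≤ (q : ℝ) := by exact_mod_cast hq.one_lt.le
  have hN' : (1 : ℝ) ≤ (N : ℝ) := by exact_mod_cast hN
  have hk0 : (0 : ℝ) < (k : ℝ) := by
    have : (4 : ℝ) ≤ (k : ℝ) := by exact_mod_cast hk
    linarith
  set lam : ℝ := (N : ℝ) ^ (1 + ε) * (1 / (q : ℝ) + 1 / (N : ℝ) + (q : ℝ) / (N : ℝ) ^ k) ^ (1 / (k : ℝ))
    with hlam
  have hlam0 : 0 < lam := by positivity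
  have hlam1 : (N : ℝ) ^ (1 + ε) * (q : ℝ) ^ (-(1 / (k : ℝ))) ≤ lam := by
    rw [hlam]
    apply mul_le_mul_of_nonneg_left _ (by positivity)
    rw [Real.rpow_neg (by positivity), ← Real.inv_rpow (by positivity)]
    apply Real.rpow_le_rpow (by positivity)
    · rw [← one_div]
      have : 0 ≤ 1 / (N : ℝ) + (q : ℝ) / (N : ℝ) ^ k := by positivity
      linarith
    · positivity
  have hlam4 : (N : ℝ) ^ (4 + 4 * ε) * (q : ℝ) ^ (-(4 / (k : ℝ))) ≤ lam ^ 4 := by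
    have h1 : ((N : ℝ) ^ (1 + ε) * (q : ℝ) ^ (-(1 / (k : ℝ)))) ^ 4 ≤ lam ^ 4 :=
      pow_le_pow_left₀ (by positivity) hlam1 4
    refine le_trans (le_of_eq ?_) h1
    rw [mul_pow, ← Real.rpow_natCast ((N : ℝ) ^ (1 + ε)) 4, ← Real.rpow_mul (by positivity),
      ← Real.rpow_natCast ((q : ℝ) ^ (-(1 / (k : ℝ)))) 4, ← Real.rpow_mul (by positivity)]
    congr 2
    · push_cast; ring
    · push_cast; ring
  set B : Finset ℕ := (range q).filter (fun b => ∃ ξ : ℝ, lam < ‖sm k N (t + (b : ℝ) / (q : ℝ)) ξ‖) with hB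
  have hset : {b : ℕ | b < q ∧ ∃ ξ : ℝ, lam < ‖sm k N (t + (b : ℝ) / (q : ℝ)) ξ‖} = (B : Set ℕ) := by
    ext b
    rw [hB, Finset.coe_filter, Set.mem_setOf_eq, Set.mem_setOf_eq, Finset.mem_range]
  rw [hset, Set.ncard_coe_finset]
  have h1 : (B.card : ℝ) * lam ^ 4 ≤ (2 * (N : ℝ) + 1) * ((2 * k + 2) * (N : ℝ) ^ 3) := by
    calc (B.card : ℝ) * lam ^ 4 = ∑ b ∈ B, lam ^ 4 := by rw [Finset.sum_const, nsmul_eq_mul]
      _ ≤ ∑ b ∈ B, (2 * (N : ℝ) + 1) * Q k N (t + (b : ℝ) / (q : ℝ)) := by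
          apply Finset.sum_le_sum
          intro b hb
          rw [hB, Finset.mem_filter] at hb
          obtain ⟨_, ξ, hξ⟩ := hb
          exact (pow_le_pow_left₀ hlam0.le hξ.le 4).trans (sup k N _ ξ)
      _ ≤ ∑ b ∈ range q, (2 * (N : ℝ) + 1) * Q k N (t + (b : ℝ) / (q : ℝ)) := by
          apply Finset.sum_le_sum_of_subset_of_nonneg
          · rw [hB]; exact Finset.filter_subset _ _
          · intro b _ _
            exact mul_nonneg (by positivity) (Q_nonneg k N _)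
      _ = (2 * (N : ℝ) + 1) * ∑ b ∈ range q, Q k N (t + (b : ℝ) / (q : ℝ)) := by rw [Finset.mul_sum]
      _ ≤ (2 * (N : ℝ) + 1) * ((2 * k + 2) * (N : ℝ) ^ 3) :=
          mul_le_mul_of_nonneg_left (moment k N q (by omega) hq hqN t) (by positivity)
  have h2 : (2 * (N : ℝ) + 1) * ((2 * k + 2) * (N : ℝ) ^ 3) ≤ (6 * k + 6) * (N : ℝ) ^ 4 := by
    have h3 : 2 * (N : ℝ) + 1 ≤ 3 * N := by linarith
    calc (2 * (N : ℝ) + 1) * ((2 * k + 2) * (N : ℝ) ^ 3) ≤ (3 * N) * ((2 * k + 2) * (N : ℝ) ^ 3) :=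
          mul_le_mul_of_nonneg_right h3 (by positivity)
      _ = (6 * k + 6) * (N : ℝ) ^ 4 := by ring
  have h4 : (B.card : ℝ) ≤ (6 * k + 6) * (N : ℝ) ^ 4 / lam ^ 4 := by
    rw [le_div_iff₀ (by positivity)]
    exact h1.trans h2
  refine h4.trans ?_
  calc (6 * k + 6) * (N : ℝ) ^ 4 / lam ^ 4 ≤
      (6 * k + 6) * (N : ℝ) ^ 4 / ((N : ℝ) ^ (4 + 4 * ε) * (q : ℝ) ^ (-(4 / (k : ℝ)))) :=
        div_le_div_of_nonneg_left (by positivity) (by positivity) hlam4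
    _ = (6 * k + 6) * (q : ℝ) ^ (4 / (k : ℝ)) / (N : ℝ) ^ (4 * ε) := by
        rw [Real.rpow_neg (by positivity)]
        have e1 : (N : ℝ) ^ (4 + 4 * ε) = (N : ℝ) ^ 4 * (N : ℝ) ^ (4 * ε) := by
          rw [← Real.rpow_natCast (N : ℝ) 4, ← Real.rpow_add (by positivity)]
          norm_num
        rw [e1]
        have a1 : (N : ℝ) ^ (4 * ε) ≠ 0 := by positivity
        have a2 : (q : ℝ) ^ (4 / (k : ℝ)) ≠ 0 := by positivity
        have a3 : (N : ℝ) ≠ 0 := by positivity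
        field_simp

end Pool.Agent.W928.MW
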